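import Pool.Agent.Run7.h442.BG.TorL

/-! Project BG (Gaussian disorder): the torus theorem for laws of large support. -/

set_option autoImplicit false

open scoped BigOperators Matrix Topology
open MeasureTheory Filter

namespace Pool.Agent.Run7.h442.BG

open Pool.Agent.Run7.h442.BA
open Pool.Agent.W788.BK (PP nsq Low hi S_QB S_LOW JJ)
open Pool.Agent.W788.MFP.Four (T e NN adj NN_pos card_T)
open Pool.Agent.W788.MF2.Dom (m1 m1_pos)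

/-- The torus theorem for laws whose support grows. -/
def S_TORG : Prop :=
  ∀ (d : ℕ) (a₁ a₂ γ cv Cv κ : ℝ), 3 ≤ d → 0 < a₁ → a₁ ≤ a₂ → a₂ < 4 * d → 1 ≤ γ → 0 < cv →
    0 < Cv → 1 / 50 ≤ κ → κ < 1 / 28 → ∃ c₁ : ℝ, 0 < c₁ ∧ ∃ u : ℝ, 0 < u ∧ u ≤ κ / 100 ∧
    ∀ CE cA B : ℝ, 0 < CE → 0 < cA → ∃ lam₀ : ℝ, 0 < lam₀ ∧ lam₀ < 1 ∧ ∀ lam : ℝ, 0 < lam →
      lam ≤ lam₀ → ∀ (L : ℕ) [NeZero L], lam ^ (-20 : ℝ) ≤ L → (L : ℝ) ≤ lam ^ (-B) →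
      ∀ (ν : Measure ℝ) [IsProbabilityMeasure ν], (∀ᵐ x ∂ν, |x| ≤ lam ^ (1 - u / 8)) →
      ∫ x, x ∂ν = 0 → cv * lam ^ 2 ≤ ∫ x, x ^ 2 ∂ν → ∫ x, x ^ 2 ∂ν ≤ Cv * lam ^ 2 →
      ∀ (E y : ℝ) (X : T d L → ℂ), a₁ ≤ E → E ≤ a₂ → 0 ≤ y → y ≤ 1 →
      (∀ k, ‖X k - (((γ * (2 * d - adj k - E) : ℝ) : ℂ) - y * Complex.I)‖
        ≤ CE * lam ^ (2 + 2 * κ)) →
      (∀ k, y ≤ -(X k).im) →
      (∀ k, cA * lam ^ (6 + 2 * κ) / (|γ * (2 * d - adj k - E)| + lam ^ (2 - u)) ^ 2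
        ≤ -(X k).im) →
      ∀ k, (sm ν X k).im ≤ -(c₁ * lam ^ 2) ∧ ‖sm ν X k‖ ≤ lam ^ (2 - u) / 2

/-- the torus theorem -/
theorem torG (hDET : S_DET) (hCN : S_CNTL) (hCY : S_CYL) : S_TORG := by
  intro d a₁ a₂ γ cv Cv κ hd ha₁ h12 ha₂ hγ hcv hCv hκ hκ1
  have hd0 : (0 : ℝ) ≤ d := by positivity
  have hC3 : 0 ≤ Pool.Agent.W788.MFP.Dos.C3 := by unfold Pool.Agent.W788.MFP.Dos.C3; norm_num
  obtain ⟨cN, CN, hcN, hCN0, hcnt⟩ := hCN d (a₁ / 2) ((a₂ + 4 * d) / 2) (by omega) (by linarith)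
    (by linarith)
  have hγ0 : 0 < γ := by linarith
  obtain ⟨c', c₂, hc', hc₂, hdet⟩ := hDET (cN / γ) (Pool.Agent.W788.MFP.Dos.C3 + 1)
    (by positivity) (by positivity)
  obtain ⟨CQ, hCQ0, hCQ⟩ := qbound
  refine ⟨cv * c' / 2, by positivity, min (κ / 100) ((1 / 28 - κ) / 10),
    lt_min (by linarith) (by linarith), min_le_left _ _, ?_⟩
  set u := min (κ / 100) ((1 / 28 - κ) / 10) with hudef
  have hu : 0 < u := lt_min (by linarith) (by linarith)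
  have huκ : u ≤ κ / 100 := min_le_left _ _
  have hu2 : u ≤ (1 / 28 - κ) / 10 := min_le_right _ _
  clear_value u
  intro CE cA B hCE hcA
  have hda : 0 < 4 * (d : ℝ) - a₂ := by linarith
  -- the constants
  obtain ⟨p, hp⟩ := exists_nat_ge ((2 * (max B 0 * d) + 86) / (u / 2) + 1)
  have hp0 : p ≠ 0 := by
    rintro rfl
    have h2 : 0 ≤ (2 * (max B 0 * d) + 86) / (u / 2) := by
      have := le_max_right B 0
      positivity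
    norm_num at hp
    linarith
  have hp' : 2 * (max B 0 * d) + 86 ≤ p * (u / 2) := by
    have h2 : (2 * (max B 0 * d) + 86) / (u / 2) ≤ p := by linarith
    rwa [div_le_iff₀ (by positivity)] at h2
  obtain ⟨K, hKd⟩ : ∃ K : ℝ, K = 160000 + 32 + 30 + (γ + 1) ^ 2 / cA + CE +
    (8 * d * γ + 1) ^ 2 / cA + 2 * ((8 * d * γ + 3) ^ 2 + 1) + CE / c₂ + 1 / c₂ + 4 / CE +
    2 / a₁ + 2 / (4 * d - a₂) + CN * γ / CE + 1 / CE + CE ^ 2 / (c₂ * cA) +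
    CE ^ 2 / (c₂ * cv * cA) + 2 / (cv * c') + Cv := ⟨_, rfl⟩
  have hm := m1_pos
  obtain ⟨K2, hK2d⟩ : ∃ K2 : ℝ, K2 = 8 * p / m1 ^ 2 + 2048 * p / m1 ^ 2 +
    1 / c₂ + 4 / c' + Cv := ⟨_, rfl⟩
  have n3 : 0 ≤ (γ + 1) ^ 2 / cA := by positivity
  have n5 : 0 ≤ CE := hCE.le
  have n6 : 0 ≤ (8 * d * γ + 1) ^ 2 / cA := by positivity
  have n7 : 0 ≤ 2 * ((8 * d * γ + 3) ^ 2 + 1) := by positivity
  have n8 : 0 ≤ CE / c₂ := by positivity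
  have n9 : 0 ≤ 1 / c₂ := by positivity
  have n10 : 0 ≤ 4 / CE := by positivity
  have n11 : 0 ≤ 2 / a₁ := by positivity
  have n12 : 0 ≤ 2 / (4 * d - a₂) := by positivity
  have n13 : 0 ≤ CN * γ / CE := by positivity
  have n14 : 0 ≤ 1 / CE := by positivity
  have n15 : 0 ≤ CE ^ 2 / (c₂ * cA) := by positivity
  have n16 : 0 ≤ CE ^ 2 / (c₂ * cv * cA) := by positivity
  have n17 : 0 ≤ 2 / (cv * c') := by positivity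
  have m1' : 0 ≤ 8 * p / m1 ^ 2 := by positivity
  have m2' : 0 ≤ 2048 * p / m1 ^ 2 := by positivity
  have m4' : 0 ≤ 4 / c' := by positivity
  have hev : ∀ᶠ lam in 𝓝[>] (0 : ℝ), (0 < lam ∧ lam ≤ 1 / 2) ∧ K * lam ^ (u / 2) ≤ 1 ∧
      K2 * lam ^ (u / 4) ≤ 1 ∧ 4 * CQ * Real.log (1 / lam) ^ 2 * lam ^ u ≤ 1 ∧
      (2 * (2 + 8 * Pool.Agent.W788.MFP.Dos.C3)) * Real.log (1 / lam) * lam ^ u ≤ 1 ∧
      (3 * (2 + 8 * Pool.Agent.W788.MFP.Dos.C3)) * Real.log (1 / lam) * lam ^ (u / 2) ≤ 1 := by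
    filter_upwards [Pw.ev_one, Pw.ev_mul K (u / 2) (by positivity),
      Pw.ev_mul K2 (u / 4) (by positivity),
      Pw.ev_log2 (4 * CQ) u hu (by positivity),
      Pw.ev_log (2 * (2 + 8 * Pool.Agent.W788.MFP.Dos.C3)) u hu (by positivity),
      Pw.ev_log (3 * (2 + 8 * Pool.Agent.W788.MFP.Dos.C3)) (u / 2) (by positivity) (by positivity)]
      with lam h1 h2 h3 h4 h5 h6
    exact ⟨h1, h2, h3, h4, h5, h6⟩
  obtain ⟨lam₀, hl0, hl1, hlam⟩ := Pw.ex_lam hev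
  refine ⟨lam₀, hl0, hl1, ?_⟩
  intro lam h0 hle L _ hL hLB ν _ hν hν0 hν1 hν2 E y X hE1 hE2 hy hy1 hX1 hX2 hX3
  obtain ⟨⟨_, h1⟩, hK, hK2, hq2, hq1, hq3⟩ := hlam lam h0 hle
  have h1' : lam ≤ 1 := h1.trans (by norm_num)
  have hLB' : (L : ℝ) ≤ lam ^ (-(max B 0)) :=
    hLB.trans (Pw.anti h0 h1' (by have := le_max_left B 0; linarith))
  -- the scale of the law
  obtain ⟨C₁, hC₁⟩ : ∃ C₁ : ℝ, C₁ = lam ^ (-(u / 8)) := ⟨_, rfl⟩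
  have hC10 : 0 < C₁ := by rw [hC₁]; exact Pw.pos h0 _
  have hC1l : lam ^ (1 - u / 8) = C₁ * lam := by
    rw [hC₁]
    conv_rhs => rw [← Real.rpow_one lam, ← Real.rpow_mul h0.le, one_mul, Pw.mul h0]
    congr 1; ring
  have hC12 : C₁ ^ 2 = lam ^ (-(u / 4)) := by
    rw [hC₁, Pw.pow h0]; congr 1; push_cast; ring
  rw [hC1l] at hν
  obtain ⟨s₂, hs₂⟩ : ∃ s₂ : ℝ, s₂ = (∫ x, x ^ 2 ∂ν) / (C₁ * lam) ^ 2 := ⟨_, rfl⟩
  have hCl : 0 < (C₁ * lam) ^ 2 := by positivity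
  have hv0 : 0 < ∫ x, x ^ 2 ∂ν := lt_of_lt_of_le (by positivity) hν1
  have hs0 : 0 < s₂ := by rw [hs₂]; positivity
  have hvs : ∫ x, x ^ 2 ∂ν = s₂ * (C₁ * lam) ^ 2 := by rw [hs₂]; field_simp
  have hg2 : C₁ ^ 2 * lam ^ (u / 4) = 1 := by
    rw [hC12, Pw.mul h0, neg_add_cancel, Real.rpow_zero]
  have hCvC : Cv ≤ C₁ ^ 2 := by
    have h2 : Cv * lam ^ (u / 4) ≤ 1 :=
      le_trans (mul_le_mul_of_nonneg_right (by linarith) (Pw.pos h0 _).le) hK2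
    calc Cv = Cv * (C₁ ^ 2 * lam ^ (u / 4)) := by rw [hg2, mul_one]
      _ = C₁ ^ 2 * (Cv * lam ^ (u / 4)) := by ring
      _ ≤ C₁ ^ 2 * 1 := by gcongr
      _ = _ := mul_one _
  have hs1 : s₂ ≤ 1 := by
    rw [hs₂, div_le_one hCl]
    refine hν2.trans ?_
    rw [mul_pow]
    gcongr
  have hsC : cv ≤ s₂ * C₁ ^ 2 := by
    have h2 : s₂ * C₁ ^ 2 * lam ^ 2 = ∫ x, x ^ 2 ∂ν := by rw [hvs]; ring
    rw [← h2] at hν1
    exact le_of_mul_le_mul_right hν1 (by positivity)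
  -- the numbers
  have hKn : 0 ≤ K := by linarith
  have hK2n : 0 ≤ K2 := by linarith
  have hpm : 1 ≤ lam ^ (-(u / 2)) := Pw.one_le h0 h1' (by linarith)
  have q1 : ∀ {C : ℝ}, C ≤ K → C ≤ K * lam ^ (-(u / 2)) := fun {C} hC =>
    hC.trans (le_mul_of_one_le_right hKn hpm)
  have q2 : ∀ {C x : ℝ}, C ≤ K → -(u / 2) ≤ x → C * lam ^ x ≤ K * lam ^ (-(u / 2)) :=
    fun {C x} hC hx => (mul_le_mul_of_nonneg_right hC (Pw.pos h0 _).le).trans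
      (mul_le_mul_of_nonneg_left (Pw.anti h0 h1' hx) hKn)
  have q3 : ∀ {C : ℝ}, C ≤ K2 → C * C₁ ^ 2 ≤ K2 * lam ^ (-(u / 4)) := fun {C} hC => by
    rw [hC12]
    exact mul_le_mul_of_nonneg_right hC (Pw.pos h0 _).le
  have hKK : K * lam ^ (-(u / 2)) * lam ^ u ≤ 1 := by
    have h2 : K * lam ^ (-(u / 2)) * lam ^ u = K * lam ^ (u / 2) := by
      rw [mul_assoc, Pw.mul h0]; congr 2; ring
    rw [h2]; exact hK
  have hKK2 : K2 * lam ^ (-(u / 4)) * lam ^ (u / 2) ≤ 1 := by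
    have h2 : K2 * lam ^ (-(u / 4)) * lam ^ (u / 2) = K2 * lam ^ (u / 4) := by
      rw [mul_assoc, Pw.mul h0]; congr 2; ring
    rw [h2]; exact hK2
  have hk2 : 32 * C₁ ≤ K * lam ^ (-(u / 2)) := by
    rw [hC₁]; exact q2 (by linarith) (by linarith)
  have hk3 : 30 * C₁ ^ 2 ≤ K * lam ^ (-(u / 2)) := by
    rw [hC12]; exact q2 (by linarith) (by linarith)
  have hk15 : CE ^ 2 * C₁ ^ 2 / (c₂ * cA) ≤ K * lam ^ (-(u / 2)) := by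
    have h2 : CE ^ 2 * C₁ ^ 2 / (c₂ * cA) = CE ^ 2 / (c₂ * cA) * lam ^ (-(u / 4)) := by
      rw [hC12]; ring
    rw [h2]; exact q2 (by linarith) (by linarith)
  have hk16 : CE ^ 2 / (c₂ * (s₂ * C₁ ^ 2) * cA) ≤ K * lam ^ (-(u / 2)) := by
    have h2 : CE ^ 2 / (c₂ * (s₂ * C₁ ^ 2) * cA) ≤ CE ^ 2 / (c₂ * cv * cA) := by gcongr
    exact h2.trans (q1 (by linarith))
  have hk17 : 2 / (s₂ * C₁ ^ 2 * c') ≤ K * lam ^ (-(u / 2)) := by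
    have h2 : 2 / (s₂ * C₁ ^ 2 * c') ≤ 2 / (cv * c') := by gcongr
    exact h2.trans (q1 (by linarith))
  have hj1 : 8 * p * C₁ ^ 2 / m1 ^ 2 ≤ K2 * lam ^ (-(u / 4)) := by
    have h2 : 8 * p * C₁ ^ 2 / m1 ^ 2 = 8 * p / m1 ^ 2 * C₁ ^ 2 := by ring
    rw [h2]; exact q3 (by linarith)
  have hj2 : 2048 * p * C₁ ^ 2 / m1 ^ 2 ≤ K2 * lam ^ (-(u / 4)) := by
    have h2 : 2048 * p * C₁ ^ 2 / m1 ^ 2 = 2048 * p / m1 ^ 2 * C₁ ^ 2 := by ring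
    rw [h2]; exact q3 (by linarith)
  have hj3 : C₁ ^ 2 / c₂ ≤ K2 * lam ^ (-(u / 4)) := by
    have h2 : C₁ ^ 2 / c₂ = 1 / c₂ * C₁ ^ 2 := by ring
    rw [h2]; exact q3 (by linarith)
  have hj4 : 4 * C₁ ^ 2 / c' ≤ K2 * lam ^ (-(u / 4)) := by
    have h2 : 4 * C₁ ^ 2 / c' = 4 / c' * C₁ ^ 2 := by ring
    rw [h2]; exact q3 (by linarith)
  have hmain := tor_lam hCY (d := d) (a₁ := a₁) (a₂ := a₂) (γ := γ) (C₁ := C₁) (s₂ := s₂) (κ := κ)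
    (u := u) (c' := c') (c₂ := c₂) (cN := cN) (CN := CN) (CQ := CQ) (CE := CE) (cA := cA)
    (B := max B 0) hd ha₁ ha₂ hγ hC10 hs0 hs1 hκ hκ1 hu huκ hu2 hc' hc₂ hcN hCN0
    (fun L' _ E' t => hcnt L' E' t) (fun ι _ _ => hdet ι) (fun d' L' _ => hCQ d' L') hCE hcA
    (le_max_right B 0) hp0 hp' h0 h1 hKK hKK2 hq2 hq1 hq3 (q1 (by linarith)) hk2 hk3
    (q1 (by linarith)) (q1 (by linarith)) (q1 (by linarith)) (q1 (by linarith)) (q1 (by linarith))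
    (q1 (by linarith)) (q1 (by linarith)) (q1 (by linarith)) (q1 (by linarith)) (q1 (by linarith))
    (q1 (by linarith)) hk15 hk16 hk17 hj1 hj2 hj3 hj4 L hL hLB' ν hν hν0 hvs E y X hE1 hE2 hy hy1
    hX1 hX2 hX3
  intro k
  obtain ⟨r1, r2⟩ := hmain k
  refine ⟨r1.trans ?_, r2⟩
  have h2 : cv * c' / 2 * lam ^ 2 ≤ s₂ * C₁ ^ 2 * c' / 2 * lam ^ 2 := by gcongr
  linarith

end Pool.Agent.Run7.h442.BG
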