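import Pool.Agent.Run7.h225.BA_C1

/-! Project BG (Gaussian disorder): truncation of the law. -/

set_option autoImplicit false

open scoped BigOperators Matrix Topology
open MeasureTheory Filter

namespace Pool.Agent.Run7.h442.BG

open Pool.Agent.Run7.h442.BA Pool.Agent.Run7.h225.BA_C1
open Pool.Agent.W788.BK (PP)
open Pool.Agent.W788.MFP.Four (T NN card_T NN_pos)

noncomputable section

theorem csL_trunc {d L : ℕ} [NeZero L] (ν : Measure ℝ) [IsProbabilityMeasure ν] {f : ℝ → ℝ}
    (hf : Measurable f) {q : ℝ} (hq : 0 ≤ q) (hq1 : q < 1) {m : T d L → ℂ} (hm : ∀ k, ‖m k‖ ≤ q)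
    (k : T d L) :
    ‖csL ν m k - csL (ν.map f) m k‖ ≤ 2 / (1 - q) * (NN d L * ν.real {x | f x ≠ x}) := by
  have hprob : IsProbabilityMeasure (ν.map f) := Measure.isProbabilityMeasure_map hf.aemeasurable
  have hmap : (PP (T d L) ν).map (fun V x => f (V x)) = PP (T d L) (ν.map f) := by
    unfold PP
    exact Measure.pi_map_pi (μ := fun _ : T d L => ν) (f := fun _ => f) fun _ => hf.aemeasurable
  have hmeas : Measurable fun (V : T d L → ℝ) (x : T d L) => f (V x) :=
    measurable_pi_lambda _ fun x => hf.comp (measurable_pi_apply x)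
  have hFc := F_cont (d := d) (L := L) hq hq1 hm k
  have hFi := F_int (d := d) (L := L) ν hq hq1 hm k
  have h1 : csL (ν.map f) m k =
      ∫ V, (CL (fun x => f (V x)) * Rm m (fun x => f (V x))) k k ∂(PP (T d L) ν) := by
    rw [csL_eq, ← hmap]
    exact integral_map (f := fun V : T d L → ℝ => (CL V * Rm m V) k k) hmeas.aemeasurable
      hFc.aestronglyMeasurable
  have hFi2 : Integrable (fun V : T d L → ℝ =>
      (CL (fun x => f (V x)) * Rm m (fun x => f (V x))) k k) (PP (T d L) ν) := by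
    refine Integrable.of_bound (hFc.measurable.comp hmeas).aestronglyMeasurable (1 / (1 - q)) ?_
    exact Filter.Eventually.of_forall fun V => F_bd hq hq1 hm _ k
  rw [h1, csL_eq, ← integral_sub hFi hFi2]
  have hS : MeasurableSet {x : ℝ | f x ≠ x} := (measurableSet_eq_fun hf measurable_id).compl
  have hA : MeasurableSet {V : T d L → ℝ | ∃ x, f (V x) ≠ V x} := by
    have : {V : T d L → ℝ | ∃ x, f (V x) ≠ V x} = ⋃ x, (fun V => V x) ⁻¹' {x : ℝ | f x ≠ x} := by
      ext V; simp
    rw [this]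
    exact MeasurableSet.iUnion fun x => (measurable_pi_apply x) hS
  have hpos : 0 < 1 - q := by linarith
  have h2 : ∀ V : T d L → ℝ, ‖(CL V * Rm m V) k k -
      (CL (fun x => f (V x)) * Rm m (fun x => f (V x))) k k‖ ≤
      Set.indicator {V : T d L → ℝ | ∃ x, f (V x) ≠ V x} (fun _ => 2 / (1 - q)) V := by
    intro V
    by_cases hV : V ∈ {V : T d L → ℝ | ∃ x, f (V x) ≠ V x}
    · rw [Set.indicator_of_mem hV]
      refine (norm_sub_le _ _).trans ?_
      have e1 := F_bd hq hq1 hm V k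
      have e2 := F_bd hq hq1 hm (fun x => f (V x)) k
      have e3 : 2 / (1 - q) = 1 / (1 - q) + 1 / (1 - q) := by ring
      rw [e3]
      exact add_le_add e1 e2
    · rw [Set.indicator_of_notMem hV]
      have h3 : (fun x => f (V x)) = V := by
        funext x
        by_contra h
        exact hV ⟨x, h⟩
      rw [h3, sub_self, norm_zero]
  have hpu : (PP (T d L) ν).real {V : T d L → ℝ | ∃ x, f (V x) ≠ V x} ≤
      NN d L * ν.real {x | f x ≠ x} := by
    have h3 : {V : T d L → ℝ | ∃ x, f (V x) ≠ V x} = ⋃ x, (fun V => V x) ⁻¹' {x : ℝ | f x ≠ x} := by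
      ext V; simp
    rw [h3]
    refine (measureReal_iUnion_fintype_le _).trans ?_
    have h4 : ∀ x : T d L, (PP (T d L) ν).real ((fun V => V x) ⁻¹' {x : ℝ | f x ≠ x}) =
        ν.real {x | f x ≠ x} := by
      intro x
      have h5 : MeasurePreserving (fun V : T d L → ℝ => V x) (PP (T d L) ν) ν :=
        measurePreserving_eval (fun _ : T d L => ν) x
      rw [measureReal_def, measureReal_def, h5.measure_preimage hS.nullMeasurableSet]
    rw [Finset.sum_congr rfl fun x _ => h4 x, Finset.sum_const, Finset.card_univ, nsmul_eq_mul,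
      card_T]
  calc _ ≤ ∫ V, ‖(CL V * Rm m V) k k -
      (CL (fun x => f (V x)) * Rm m (fun x => f (V x))) k k‖ ∂(PP (T d L) ν) :=
        norm_integral_le_integral_norm _
    _ ≤ ∫ V, Set.indicator {V : T d L → ℝ | ∃ x, f (V x) ≠ V x} (fun _ => 2 / (1 - q)) V
        ∂(PP (T d L) ν) := by
        refine integral_mono (hFi.sub hFi2).norm ((integrable_const _).indicator hA) h2
    _ = (PP (T d L) ν).real {V : T d L → ℝ | ∃ x, f (V x) ≠ V x} * (2 / (1 - q)) := by
        rw [integral_indicator_const _ hA, smul_eq_mul]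
    _ ≤ (NN d L * ν.real {x | f x ≠ x}) * (2 / (1 - q)) :=
        mul_le_mul_of_nonneg_right hpu (by positivity)
    _ = _ := by ring

/-- truncation of the law, effective phases -/
theorem psL_trunc {d L : ℕ} [NeZero L] (ν : Measure ℝ) [IsProbabilityMeasure ν] {f : ℝ → ℝ}
    (hf : Measurable f) {q : ℝ} (hq : 0 ≤ q) (hq1 : q < 1) {m : T d L → ℂ} (hm : ∀ k, ‖m k‖ ≤ q)
    (k : T d L) :
    ‖psL ν m k - psL (ν.map f) m k‖ ≤ 8 / (1 - q) * (NN d L * ν.real {x | f x ≠ x}) := by
  have hprob : IsProbabilityMeasure (ν.map f) := Measure.isProbabilityMeasure_map hf.aemeasurable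
  have h1 := (Pool.Agent.Run7.h225.BA_C1.main d L ν m m q 0 hq hq1 hm hm (by simp)).2.2.2 k
  have h2 := (Pool.Agent.Run7.h225.BA_C1.main d L (ν.map f) m m q 0 hq hq1 hm hm (by simp)).2.2.2 k
  have h3 := csL_trunc ν hf hq hq1 hm k
  unfold psL
  set a := csL ν m k
  set b := csL (ν.map f) m k
  have ha : 1 + m k * a ≠ 0 := fun h => by rw [h, norm_zero] at h1; norm_num at h1
  have hb : 1 + m k * b ≠ 0 := fun h => by rw [h, norm_zero] at h2; norm_num at h2
  have h4 : a / (1 + m k * a) - b / (1 + m k * b) = (a - b) / ((1 + m k * a) * (1 + m k * b)) := by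
    rw [div_sub_div _ _ ha hb]
    congr 1
    ring
  rw [h4, norm_div, norm_mul]
  have h5 : 1 / 4 ≤ ‖1 + m k * a‖ * ‖1 + m k * b‖ := by
    calc (1 : ℝ) / 4 = 1 / 2 * (1 / 2) := by norm_num
      _ ≤ _ := mul_le_mul h1 h2 (by norm_num) (norm_nonneg _)
  calc ‖a - b‖ / (‖1 + m k * a‖ * ‖1 + m k * b‖) ≤ ‖a - b‖ / (1 / 4) :=
        div_le_div_of_nonneg_left (norm_nonneg _) (by norm_num) h5
    _ = 4 * ‖a - b‖ := by ring
    _ ≤ 4 * (2 / (1 - q) * (NN d L * ν.real {x | f x ≠ x})) := by gcongr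
    _ = _ := by ring

/-! ## The truncated law -/

/-- Truncation. -/
def tr (t x : ℝ) : ℝ := if |x| ≤ t then x else 0

theorem tr_meas (t : ℝ) : Measurable (tr t) :=
  Measurable.ite (measurableSet_le measurable_id.abs measurable_const) measurable_id
    measurable_const

theorem tr_abs {t : ℝ} (ht : 0 ≤ t) (x : ℝ) : |tr t x| ≤ t := by
  unfold tr
  split_ifs with h
  · exact h
  · simpa using ht

theorem tr_neg (t x : ℝ) : tr t (-x) = -tr t x := by
  unfold tr
  rw [abs_neg]
  split_ifs <;> simp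

theorem tr_sq_le (t x : ℝ) : tr t x ^ 2 ≤ x ^ 2 := by
  unfold tr
  split_ifs
  · exact le_rfl
  · simp [sq_nonneg]

theorem tr_sq_ge {t : ℝ} (ht : 0 < t) (x : ℝ) : x ^ 2 - x ^ 4 / t ^ 2 ≤ tr t x ^ 2 := by
  unfold tr
  split_ifs with h
  · have : 0 ≤ x ^ 4 / t ^ 2 := by positivity
    linarith
  · push Not at h
    have h1 : t ^ 2 ≤ x ^ 2 := by
      rw [← sq_abs x]
      exact pow_le_pow_left₀ ht.le h.le 2
    have h2 : x ^ 2 ≤ x ^ 4 / t ^ 2 := by
      rw [le_div_iff₀ (by positivity)]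
      have h3 : x ^ 4 = x ^ 2 * x ^ 2 := by ring
      rw [h3]
      exact mul_le_mul_of_nonneg_left h1 (sq_nonneg _)
    simp only [ne_eq, OfNat.ofNat_ne_zero, not_false_eq_true, zero_pow]
    linarith

/-- The truncated law of a symmetric law. -/
theorem trunc_law (ν : Measure ℝ) [IsProbabilityMeasure ν] (hsym : ν.map (fun x => -x) = ν) {t : ℝ}
    (ht : 0 < t) (h2 : Integrable (fun x : ℝ => x ^ 2) ν) (h4 : Integrable (fun x : ℝ => x ^ 4) ν) :
    (∀ᵐ x ∂(ν.map (tr t)), |x| ≤ t) ∧ ∫ x, x ∂(ν.map (tr t)) = 0 ∧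
    ∫ x, x ^ 2 ∂(ν.map (tr t)) ≤ ∫ x, x ^ 2 ∂ν ∧
    (∫ x, x ^ 2 ∂ν) - (∫ x, x ^ 4 ∂ν) / t ^ 2 ≤ ∫ x, x ^ 2 ∂(ν.map (tr t)) := by
  have hm := tr_meas t
  have hi : Integrable (fun x => tr t x ^ 2) ν := by
    refine Integrable.of_bound (C := t ^ 2) (hm.pow_const 2).aestronglyMeasurable
      (ae_of_all _ fun x => ?_)
    rw [Real.norm_eq_abs, abs_pow]
    exact pow_le_pow_left₀ (abs_nonneg _) (tr_abs ht.le x) 2
  refine ⟨?_, ?_, ?_, ?_⟩
  · refine (ae_map_iff (p := fun x => |x| ≤ t) hm.aemeasurable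
      (measurableSet_le measurable_id.abs measurable_const)).2 ?_
    exact ae_of_all _ fun x => tr_abs ht.le x
  · rw [integral_map hm.aemeasurable (by fun_prop)]
    have h3 : ∫ x, tr t x ∂ν = -∫ x, tr t x ∂ν := by
      conv_lhs => rw [← hsym]
      rw [integral_map (by fun_prop) hm.aestronglyMeasurable, ← integral_neg]
      exact integral_congr_ae (ae_of_all _ fun x => tr_neg t x)
    linarith
  · rw [integral_map hm.aemeasurable (by fun_prop)]
    exact integral_mono hi h2 fun x => tr_sq_le t x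
  · rw [integral_map hm.aemeasurable (by fun_prop), ← integral_div, ← integral_sub h2
      (h4.div_const _)]
    exact integral_mono (h2.sub (h4.div_const _)) hi fun x => tr_sq_ge ht x

/-- Markov's inequality. -/
theorem trunc_prob (ν : Measure ℝ) [IsProbabilityMeasure ν] {t : ℝ} (ht : 0 < t) (n : ℕ)
    (hn : Integrable (fun x : ℝ => |x| ^ n) ν) :
    ν.real {x | tr t x ≠ x} ≤ (∫ x, |x| ^ n ∂ν) / t ^ n := by
  have h1 : {x | tr t x ≠ x} ⊆ {x : ℝ | t ^ n ≤ |x| ^ n} := by
    intro x hx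
    simp only [Set.mem_ofPred_eq] at hx ⊢
    have h3 : t < |x| := by
      by_contra h
      push Not at h
      exact hx (if_pos h)
    exact pow_le_pow_left₀ ht.le h3.le n
  have h2 := mul_meas_ge_le_integral_of_nonneg (μ := ν) (f := fun x : ℝ => |x| ^ n)
    (ae_of_all _ fun x => pow_nonneg (abs_nonneg x) n) hn (t ^ n)
  rw [le_div_iff₀ (by positivity), mul_comm]
  refine le_trans ?_ h2
  exact mul_le_mul_of_nonneg_left (measureReal_mono h1 (measure_ne_top _ _)) (by positivity)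

end

end Pool.Agent.Run7.h442.BG
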