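import Pool.Agent.Run7.h442.BG.StepG
import Pool.Agent.Run7.h442.BG.Trunc
import Pool.Agent.Run7.h442.BG.TorG
import Pool.Agent.Run7.h442.BA.Gapp

/-! Project BG: the gap, symmetric laws with finite moments. -/

set_option autoImplicit false

namespace Pool.Agent.Run7.h442.BG

open MeasureTheory Filter Pool.Agent.W792.LL Pool.Agent.W792.WA Pool.Agent.N659.HB
open Pool.Agent.Run7.h442.BA
open Pool.Agent.W788.MFP.Four (T e NN adj)
open Pool.Agent.W788.BK (PP nsq)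
open Pool.Agent.N163.HB.GAPA
open scoped Topology Matrix

noncomputable section

/-- the number `1 - q` -/
theorem numq {lam D r η : ℝ} (h0 : 0 < lam) (hη : lam ^ 3 ≤ η)
    (hr : lam ^ 4 ≤ r) (hD1 : 1 ≤ D) (hD4 : 8 * D ^ 2 * (D + 1) ^ 2 * lam ≤ 1) :
    lam ^ 12 ≤ 2 * (η * r ^ 2 / (16 * D ^ 2)) / (D + 1) ^ 2 := by
  have hη0 : 0 < η := lt_of_lt_of_le (by positivity) hη
  have hr0 : 0 < r := lt_of_lt_of_le (by positivity) hr
  have hD0 : 0 < D := by linarith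
  rw [le_div_iff₀ (by positivity)]
  have h3 : 2 * (η * r ^ 2 / (16 * D ^ 2)) = η * r ^ 2 / (8 * D ^ 2) := by
    field_simp; norm_num
  rw [h3, le_div_iff₀ (by positivity)]
  calc lam ^ 12 * (D + 1) ^ 2 * (8 * D ^ 2) = lam ^ 11 * (8 * D ^ 2 * (D + 1) ^ 2 * lam) := by
        ring
    _ ≤ lam ^ 11 * 1 := by gcongr
    _ = lam ^ 3 * (lam ^ 4) ^ 2 := by ring
    _ ≤ _ := by gcongr

/-- The gap for a first level below the kinetic scale, symmetric laws with finite moments. -/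
def S_GAPPG : Prop :=
  ∀ (d : ℕ) (ν₀ : Measure ℝ) [IsProbabilityMeasure ν₀] (a₁ a₂ γ κ : ℝ), 3 ≤ d →
    ν₀.map (fun x => -x) = ν₀ → (∀ n : ℕ, Integrable (fun x : ℝ => |x| ^ n) ν₀) → ν₀ {0} < 1 →
    0 < a₁ → a₁ < a₂ → a₂ < 4 * d → γ = 4 * d / (a₂ - a₁) → 1 / 50 ≤ κ → κ < 1 / 28 →
    ∃ lam₀ : ℝ, 0 < lam₀ ∧ lam₀ < 1 ∧ ∀ lam : ℝ, 0 < lam → lam ≤ lam₀ →
    ∀ (ψ : C(UnitAddCircle, ℝ)), IsSemi ψ →
    ∀ [IsProbabilityMeasure (ν₀.map fun x => (γ * lam) * x)],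
    0 < vr (ν₀.map fun x => (γ * lam) * x) ∧
    ∃ σ : ℝ, 0 < σ ∧ ∀ (ρ' : Measure ℝ) [IsProbabilityMeasure ρ'],
      ρ' (Set.Icc (-((γ * (lam ^ (2 + κ) / 2)) / 8)) ((γ * (lam ^ (2 + κ) / 2)) / 8))ᶜ = 0 →
      ∀ z ∈ Zs d, ∀ s, IsFix (ν₀.map fun x => (γ * lam) * x)
        ((lev ψ (γ * (lam ^ (2 + κ) / 2))).conv ρ')
        (wz (γ • (lap d - ContinuousMap.const _ a₁)) z) s → ‖s‖ ≤ 1 - σ

/-- The gap for a first level below the kinetic scale. -/
theorem gappG (hTOR : S_TORG) (hLIP : S_LIPZ) (hXB : S_XB) (hTRA : S_TRA) (hCYL : S_CYL)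
    (hZR : S_ZR) (hUX : S_UX) (hCX : S_CX) (hPSI : S_PSI) (hFIX : S_FIX) (hCAY : S_CAY) :
    S_GAPPG := by
  intro d ν₀ _ a₁ a₂ γ κ hd hsym hmom hat ha1 ha12 ha2 hγdef hκ1 hκ2
  have hd0 : 0 < d := by omega
  have hd1 : (0 : ℝ) < d := by exact_mod_cast hd0
  have ha' : 0 < a₂ - a₁ := by linarith
  have hγ1 : 1 ≤ γ := by rw [hγdef, le_div_iff₀ ha']; linarith
  have hγ : 0 < γ := by linarith
  have hi2 : Integrable (fun x : ℝ => x ^ 2) ν₀ := by
    refine (hmom 2).congr (ae_of_all _ fun x => ?_)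
    simp only [sq_abs]
  have hi4 : Integrable (fun x : ℝ => x ^ 4) ν₀ := by
    refine (hmom 4).congr (ae_of_all _ fun x => ?_)
    show |x| ^ 4 = x ^ 4
    calc |x| ^ 4 = (|x| ^ 2) ^ 2 := by ring
      _ = (x ^ 2) ^ 2 := by rw [sq_abs]
      _ = x ^ 4 := by ring
  set V₀ : ℝ := ∫ x, x ^ 2 ∂ν₀ with hV₀
  set M₄ : ℝ := ∫ x, x ^ 4 ∂ν₀ with hM₄
  have hM40 : 0 ≤ M₄ := integral_nonneg fun x => by positivity
  have hV0 : 0 < V₀ := by
    have h0 : 0 ≤ V₀ := integral_nonneg fun x => sq_nonneg _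
    rcases h0.lt_or_eq with h | h
    · exact h
    · exfalso
      have h1 := (integral_eq_zero_iff_of_nonneg (μ := ν₀) (f := fun x : ℝ => x ^ 2)
        (fun x => sq_nonneg _) hi2).1 h.symm
      have h2 : ∀ᵐ x ∂ν₀, x = 0 := by
        filter_upwards [h1] with x hx
        simp only [Pi.zero_apply] at hx
        exact pow_eq_zero_iff (two_ne_zero) |>.1 hx
      have h3 : ν₀ {0} = 1 := by
        rw [← prob_compl_eq_zero_iff (measurableSet_singleton 0)]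
        exact ae_iff.1 h2
      rw [h3] at hat
      exact lt_irrefl _ hat
  have hcv : 0 < γ ^ 2 * V₀ / 2 := by positivity
  have hCv : 0 < γ ^ 2 * V₀ := by positivity
  obtain ⟨c₁, hc1, u, hu, hu2, hT⟩ := hTOR d (a₁ / 2) ((a₂ + 4 * d) / 2) γ (γ ^ 2 * V₀ / 2)
    (γ ^ 2 * V₀) κ hd (by linarith) (by linarith) (by linarith) hγ1 hcv hCv hκ1 hκ2
  obtain ⟨cL, hcL0, -, hcL⟩ := hLIP
  obtain ⟨C, p, hC, htra⟩ := hTRA d
  obtain ⟨D, hDd⟩ : ∃ D : ℝ, D = 8 * d * γ + 3 := ⟨_, rfl⟩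
  obtain ⟨CK, hCKd⟩ : ∃ CK : ℝ, CK = 4 * Real.pi * γ := ⟨_, rfl⟩
  obtain ⟨CE, hCEd⟩ : ∃ CE : ℝ, CE = 25 * γ ^ 2 / c₁ + 1 := ⟨_, rfl⟩
  obtain ⟨cA, hcAd⟩ : ∃ cA : ℝ, cA = c₁ * γ ^ 2 / 1152 := ⟨_, rfl⟩
  have hD1 : 1 ≤ D := by
    have : 0 ≤ 8 * d * γ := by positivity
    rw [hDd]; linarith
  have hCK1 : 1 ≤ CK := by
    rw [hCKd]
    have := Real.pi_gt_three
    calc (1 : ℝ) ≤ 4 * 3 * 1 := by norm_num
      _ ≤ 4 * Real.pi * γ := by gcongr
  have hCE : 0 < CE := by rw [hCEd]; positivity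
  have hcA : 0 < cA := by rw [hcAd]; positivity
  obtain ⟨l0, hl0, hl1, hT2⟩ := hT CE cA (135 * p + 22) hCE hcA
  obtain ⟨n, hn⟩ := exists_nat_ge (((135 * p + 22) * d + 17) / (u / 8))
  have hn' : (135 * p + 22) * d + 17 ≤ n * (u / 8) := by
    rwa [div_le_iff₀ (by positivity)] at hn
  obtain ⟨Mn, hMn⟩ : ∃ Mn : ℝ, Mn = ∫ x, |x| ^ n ∂ν₀ := ⟨_, rfl⟩
  have hMn0 : 0 ≤ Mn := by rw [hMn]; exact integral_nonneg fun x => by positivity
  have hmn : 0 < min a₁ (4 * d - a₂) := lt_min ha1 (by linarith)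
  -- the conditions
  have hev : ∀ᶠ lam in 𝓝[>] (0 : ℝ), (0 < lam ∧ lam ≤ 1 / 2) ∧ lam ≤ l0 ∧
      20 * lam ^ (1 : ℝ) ≤ 1 ∧ (2 / c₁) * lam ^ (1 : ℝ) ≤ 1 ∧ (1 / cL) * lam ^ (1 : ℝ) ≤ 1 ∧
      D ^ 2 * lam ^ (1 : ℝ) ≤ 1 ∧ (256 * D ^ 4 * CK) * lam ^ (1 : ℝ) ≤ 1 ∧
      (8 * D) * lam ^ (1 : ℝ) ≤ 1 ∧ (8 * D ^ 2 * (D + 1) ^ 2) * lam ^ (1 : ℝ) ≤ 1 ∧
      (100 * γ / c₁) * lam ^ κ ≤ 1 ∧ (c₁ / 2) * lam ^ u ≤ 1 ∧ (13 * d * γ) * lam ^ (1 : ℝ) ≤ 1 ∧
      cA * lam ^ κ ≤ 1 ∧ (γ / min a₁ (4 * d - a₂)) * lam ^ (1 : ℝ) ≤ 1 ∧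
      C * lam ^ (1 : ℝ) ≤ 1 ∧ (2 * γ ^ 2 * M₄ / V₀) * lam ^ (u / 4) ≤ 1 ∧
      (16 * (Mn * γ ^ n)) * lam ^ (1 : ℝ) ≤ 1 := by
    have h2 : ∀ᶠ lam in 𝓝[>] (0 : ℝ), lam ≤ l0 := by
      have h : Set.Ioc (0 : ℝ) l0 ∈ 𝓝[>] (0 : ℝ) := Ioc_mem_nhdsGT hl0
      filter_upwards [h] with lam hl
      exact hl.2
    have o : (0 : ℝ) < 1 := one_pos
    have k0 : 0 < κ := by linarith
    filter_upwards [Pw.ev_one, h2, Pw.ev_mul 20 1 o, Pw.ev_mul (2 / c₁) 1 o,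
      Pw.ev_mul (1 / cL) 1 o, Pw.ev_mul (D ^ 2) 1 o, Pw.ev_mul (256 * D ^ 4 * CK) 1 o,
      Pw.ev_mul (8 * D) 1 o, Pw.ev_mul (8 * D ^ 2 * (D + 1) ^ 2) 1 o,
      Pw.ev_mul (100 * γ / c₁) κ k0, Pw.ev_mul (c₁ / 2) u hu, Pw.ev_mul (13 * d * γ) 1 o,
      Pw.ev_mul cA κ k0, Pw.ev_mul (γ / min a₁ (4 * d - a₂)) 1 o, Pw.ev_mul C 1 o,
      Pw.ev_mul (2 * γ ^ 2 * M₄ / V₀) (u / 4) (by positivity), Pw.ev_mul (16 * (Mn * γ ^ n)) 1 o]
      with lam g1 g2 g3 g4 g5 g6 g7 g8 g9 g10 g11 g12 g13 g14 g15 g16 g17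
    exact ⟨g1, g2, g3, g4, g5, g6, g7, g8, g9, g10, g11, g12, g13, g14, g15, g16, g17⟩
  obtain ⟨lam₀, hlam0, hlam1, hlam⟩ := Pw.ex_lam hev
  refine ⟨lam₀, hlam0, hlam1, fun lam h0 hle ψ hψ _ => ?_⟩
  obtain ⟨⟨-, h12⟩, g2, g3, g4, g5, g6, g7, g8, g9, g10, g11, g12, g13, g14, g15, g16, g17⟩ :=
    hlam lam h0 hle
  rw [Real.rpow_one] at g3 g4 g5 g6 g7 g8 g9 g12 g14 g15 g17
  have h1 : lam ≤ 1 := by linarith
  have hκ0 : 0 < κ := by linarith
  -- the numbers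
  obtain ⟨r, hr⟩ : ∃ r : ℝ, r = γ * (lam ^ (2 + κ) / 2) := ⟨_, rfl⟩
  obtain ⟨η, hη⟩ : ∃ η : ℝ, η = c₁ * lam ^ 2 / 2 := ⟨_, rfl⟩
  obtain ⟨R, hR⟩ : ∃ R : ℝ, R = lam ^ (2 - u) := ⟨_, rfl⟩
  rw [← hr]
  have p2κ := Pw.pos h0 (2 + κ)
  have hr0 : 0 < r := by rw [hr]; positivity
  have hη0 : 0 < η := by rw [hη]; positivity
  have hR0 : 0 < R := by rw [hR]; exact Pw.pos h0 _
  have e2 : lam ^ 2 = lam ^ (2 : ℝ) := by
    rw [← Real.rpow_natCast]; norm_num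
  have h100 : 100 * r ≤ η := by
    rw [hr, hη, e2]
    have h3 : lam ^ (2 + κ) = lam ^ κ * lam ^ (2 : ℝ) := by rw [Pw.mul h0]; congr 1; ring
    have p2 := Pw.pos h0 2
    have h4 : 100 * γ * lam ^ κ ≤ c₁ := by
      have := mul_le_mul_of_nonneg_left g10 hc1.le
      calc 100 * γ * lam ^ κ = c₁ * (100 * γ / c₁ * lam ^ κ) := by field_simp
        _ ≤ c₁ * 1 := this
        _ = c₁ := mul_one _
    rw [h3]
    calc 100 * (γ * (lam ^ κ * lam ^ (2 : ℝ) / 2)) = (100 * γ * lam ^ κ) * lam ^ (2 : ℝ) / 2 := by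
          ring
      _ ≤ c₁ * lam ^ (2 : ℝ) / 2 := by gcongr
  have hηR : η ≤ R := by
    rw [hη, hR, e2]
    have h3 : lam ^ (2 : ℝ) = lam ^ u * lam ^ (2 - u) := by rw [Pw.mul h0]; congr 1; ring
    have p2 := Pw.pos h0 (2 - u)
    calc c₁ * lam ^ (2 : ℝ) / 2 = (c₁ / 2 * lam ^ u) * lam ^ (2 - u) := by rw [h3]; ring
      _ ≤ 1 * lam ^ (2 - u) := by gcongr
      _ = _ := one_mul _
  have hu1 : u ≤ 1 := by linarith
  have hRl : R ≤ lam := by
    rw [hR]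
    calc lam ^ (2 - u) ≤ lam ^ (1 : ℝ) := Pw.anti h0 h1 (by linarith)
      _ = lam := Real.rpow_one _
  have hR4 : R ≤ 1 / 4 := by linarith
  have hη3 : lam ^ 3 ≤ η := by
    rw [hη, le_div_iff₀ (by norm_num)]
    have h3 : 2 * lam ≤ c₁ := by
      have := mul_le_mul_of_nonneg_left g4 hc1.le
      calc 2 * lam = c₁ * (2 / c₁ * lam) := by field_simp
        _ ≤ c₁ * 1 := this
        _ = c₁ := mul_one _
    calc lam ^ 3 * 2 = (2 * lam) * lam ^ 2 := by ring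
      _ ≤ c₁ * lam ^ 2 := by gcongr
  have hr4 : lam ^ 4 ≤ r := by
    have h3 : lam ^ 3 ≤ lam ^ (2 + κ) := by
      have : lam ^ 3 = lam ^ (3 : ℝ) := by rw [← Real.rpow_natCast]; norm_num
      rw [this]
      exact Pw.anti h0 h1 (by linarith)
    rw [hr]
    calc lam ^ 4 = 1 * (lam ^ 3 * lam) := by ring
      _ ≤ γ * (lam ^ (2 + κ) * (1 / 2)) := by gcongr
      _ = _ := by ring
  have hcLl : lam ≤ cL := by
    have := mul_le_mul_of_nonneg_left g5 hcL0.le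
    calc lam = cL * (1 / cL * lam) := by field_simp
      _ ≤ cL * 1 := this
      _ = cL := mul_one _
  obtain ⟨N1, N2, N3, N4⟩ := nums h0 g3 hη3 hr4 hcLl hD1 g6 g7 hCK1 g8 g9
  -- the size of the torus
  obtain ⟨L, hLd⟩ : ∃ L : ℕ, L = ⌈lam ^ (-(135 * p + 21 : ℝ))⌉₊ := ⟨_, rfl⟩
  have hL1 : lam ^ (-(135 * p + 21 : ℝ)) ≤ L := by rw [hLd]; exact Nat.le_ceil _
  have hp0 : (0 : ℝ) ≤ p := Nat.cast_nonneg p
  have hL1' : lam ^ (-21 : ℝ) ≤ L := (Pw.anti h0 h1 (by linarith)).trans hL1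
  have hLpos : (0 : ℝ) < L := (Pw.pos h0 _).trans_le hL1'
  have hLne : NeZero L := ⟨fun h => by rw [h] at hLpos; simp at hLpos⟩
  have hL2 : (L : ℝ) ≤ lam ^ (-(135 * p + 22 : ℝ)) := by
    have h3 : (L : ℝ) < lam ^ (-(135 * p + 21 : ℝ)) + 1 := by
      rw [hLd]; exact Nat.ceil_lt_add_one (Pw.pos h0 _).le
    have h4 : 1 ≤ lam ^ (-(135 * p + 21 : ℝ)) := Pw.one_le h0 h1 (by linarith)
    have h5 : 2 * lam ^ (-(135 * p + 21 : ℝ)) ≤ lam ^ (-(135 * p + 22 : ℝ)) := by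
      have h6 : lam ^ (-(135 * p + 21 : ℝ)) = lam ^ (-(135 * p + 22 : ℝ)) * lam := by
        conv_rhs => rw [← Real.rpow_one lam, ← Real.rpow_mul h0.le, one_mul, Pw.mul h0]
        congr 1; ring
      rw [h6]
      have := Pw.pos h0 (-(135 * p + 22 : ℝ))
      calc 2 * (lam ^ (-(135 * p + 22 : ℝ)) * lam) = lam ^ (-(135 * p + 22 : ℝ)) * (2 * lam) := by
            ring
        _ ≤ lam ^ (-(135 * p + 22 : ℝ)) * 1 := by gcongr; linarith
        _ = _ := mul_one _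
    linarith
  have hL20 : lam ^ (-20 : ℝ) ≤ L := (Pw.anti h0 h1 (by norm_num)).trans hL1'
  have hLd' : 13 * d * γ / L ≤ lam ^ (20 : ℝ) := by
    rw [div_le_iff₀ hLpos]
    have p20 := Pw.pos h0 20
    calc 13 * d * γ ≤ lam ^ (-1 : ℝ) := by
          rw [Real.rpow_neg_one, le_inv_comm₀ (by positivity) h0]
          rw [inv_eq_one_div, le_div_iff₀ (by positivity)]
          linarith
      _ = lam ^ (20 : ℝ) * lam ^ (-21 : ℝ) := by rw [Pw.mul h0]; norm_num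
      _ ≤ lam ^ (20 : ℝ) * L := by gcongr
  -- the law
  have hgl : 0 < γ * lam := by positivity
  have hm2 : Measurable fun x : ℝ => (γ * lam) * x := by fun_prop
  obtain ⟨ν, hν⟩ : ∃ ν : Measure ℝ, ν = ν₀.map fun x => (γ * lam) * x := ⟨_, rfl⟩
  have hPν : IsProbabilityMeasure ν := by rw [hν]; infer_instance
  have hνsym : ν.map (fun x => -x) = ν := by
    have hneg : Measurable fun x : ℝ => -x := measurable_neg
    rw [hν, Measure.map_map hneg hm2]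
    conv_rhs => rw [← hsym, Measure.map_map hm2 hneg]
    congr 1
    funext x
    simp
  have hνn : ∀ n : ℕ, Integrable (fun x : ℝ => |x| ^ n) ν ∧
      ∫ x, |x| ^ n ∂ν = (γ * lam) ^ n * ∫ x, |x| ^ n ∂ν₀ := by
    intro n
    have e : ∀ x : ℝ, |(γ * lam) * x| ^ n = (γ * lam) ^ n * |x| ^ n := fun x => by
      rw [abs_mul, abs_of_pos hgl, mul_pow]
    constructor
    · rw [hν, integrable_map_measure (by fun_prop) hm2.aemeasurable]
      have h3 : (fun x : ℝ => |x| ^ n) ∘ (fun x => (γ * lam) * x) =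
          fun x => (γ * lam) ^ n * |x| ^ n := by
        funext x; exact e x
      rw [h3]
      exact (hmom n).const_mul _
    · rw [hν, integral_map hm2.aemeasurable (by fun_prop), ← integral_const_mul]
      exact integral_congr_ae (ae_of_all _ e)
  have hν2 : Integrable (fun x : ℝ => x ^ 2) ν ∧ ∫ x, x ^ 2 ∂ν = (γ * lam) ^ 2 * V₀ := by
    have e : ∀ x : ℝ, |x| ^ 2 = x ^ 2 := fun x => sq_abs x
    refine ⟨(hνn 2).1.congr (ae_of_all _ e), ?_⟩
    rw [← integral_congr_ae (ae_of_all ν e), (hνn 2).2, integral_congr_ae (ae_of_all ν₀ e)]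
  have hν4 : Integrable (fun x : ℝ => x ^ 4) ν ∧ ∫ x, x ^ 4 ∂ν = (γ * lam) ^ 4 * M₄ := by
    have e : ∀ x : ℝ, |x| ^ 4 = x ^ 4 := fun x => by
      calc |x| ^ 4 = (|x| ^ 2) ^ 2 := by ring
        _ = (x ^ 2) ^ 2 := by rw [sq_abs]
        _ = x ^ 4 := by ring
    refine ⟨(hνn 4).1.congr (ae_of_all _ e), ?_⟩
    rw [← integral_congr_ae (ae_of_all ν e), (hνn 4).2, integral_congr_ae (ae_of_all ν₀ e)]
  have hmean : ∫ x, x ∂ν = 0 := by
    have h3 : ∫ x, x ∂ν = -∫ x, x ∂ν := by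
      conv_lhs => rw [← hνsym]
      rw [integral_map (by fun_prop) (by fun_prop), ← integral_neg]
    linarith
  have hvr : 0 < vr ν := by
    refine Pool.Agent.N457.KS.Gapg.vr_pos hCAY (α := 1) _ hmean ?_
    simp only [div_one]
    rw [hν2.2]
    positivity
  -- the truncated law
  obtain ⟨t, ht⟩ : ∃ t : ℝ, t = lam ^ (1 - u / 8) := ⟨_, rfl⟩
  have ht0 : 0 < t := by rw [ht]; exact Pw.pos h0 _
  obtain ⟨T1, T2, T3, T4⟩ := trunc_law ν hνsym ht0 hν2.1 hν4.1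
  have hPT : IsProbabilityMeasure (ν.map (tr t)) :=
    Measure.isProbabilityMeasure_map (tr_meas t).aemeasurable
  rw [hν2.2] at T3 T4
  rw [hν4.2] at T4
  have hcv1 : γ ^ 2 * V₀ / 2 * lam ^ 2 ≤ ∫ x, x ^ 2 ∂(ν.map (tr t)) := by
    refine le_trans ?_ T4
    have h3 : (γ * lam) ^ 4 * M₄ / t ^ 2 = γ ^ 4 * M₄ * lam ^ (u / 4) * lam ^ 2 := by
      have h4 : t ^ 2 = lam ^ (2 - u / 4) := by
        rw [ht, Pw.pow h0]; congr 1; push_cast; ring
      have h5 : lam ^ 4 / lam ^ (2 - u / 4) = lam ^ (u / 4) * lam ^ 2 := by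
        have h6 : lam ^ 4 = lam ^ (4 : ℝ) := by rw [← Real.rpow_natCast]; norm_num
        rw [h6, e2, Pw.div h0, Pw.mul h0]; congr 1; ring
      rw [h4, mul_pow, mul_right_comm, mul_div_assoc, h5]
      ring
    rw [h3]
    have h4 : γ ^ 4 * M₄ * lam ^ (u / 4) ≤ γ ^ 2 * V₀ / 2 := by
      have h5 := mul_le_mul_of_nonneg_left g16 (by positivity : 0 ≤ γ ^ 2 * V₀ / 2)
      calc γ ^ 4 * M₄ * lam ^ (u / 4) = γ ^ 2 * V₀ / 2 * (2 * γ ^ 2 * M₄ / V₀ * lam ^ (u / 4)) := by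
            field_simp
        _ ≤ γ ^ 2 * V₀ / 2 * 1 := h5
        _ = _ := mul_one _
    have h5 := mul_le_mul_of_nonneg_right h4 (sq_nonneg lam)
    have h6 : (γ * lam) ^ 2 * V₀ = γ ^ 2 * V₀ / 2 * lam ^ 2 + γ ^ 2 * V₀ / 2 * lam ^ 2 := by ring
    rw [h6]
    linarith
  have hcv2 : ∫ x, x ^ 2 ∂(ν.map (tr t)) ≤ γ ^ 2 * V₀ * lam ^ 2 := by
    refine T3.trans (le_of_eq ?_)
    ring
  have hptr : ν.real {x | tr t x ≠ x} ≤ Mn * γ ^ n * lam ^ ((135 * p + 22) * d + 17 : ℝ) := by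
    refine (trunc_prob ν ht0 n (hνn n).1).trans ?_
    rw [(hνn n).2, ← hMn]
    have h4 : t ^ n = lam ^ (n * (1 - u / 8)) := by rw [ht, Pw.pow h0]
    have h5 : lam ^ n / lam ^ (n * (1 - u / 8)) = lam ^ (n * (u / 8)) := by
      have h6 : lam ^ n = lam ^ (n : ℝ) := (Real.rpow_natCast _ _).symm
      rw [h6, Pw.div h0]; congr 1; ring
    have h6 : (γ * lam) ^ n * Mn / t ^ n = Mn * γ ^ n * (lam ^ n / lam ^ (n * (1 - u / 8))) := by
      rw [h4, mul_pow]; ring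
    rw [h6, h5]
    have h7 := Pw.anti h0 h1 hn'
    gcongr
  have hNL : Pool.Agent.W788.MFP.Four.NN d L ≤ lam ^ (-((135 * p + 22) * d : ℝ)) := by
    unfold Pool.Agent.W788.MFP.Four.NN
    calc (L : ℝ) ^ d ≤ (lam ^ (-(135 * p + 22 : ℝ))) ^ d := pow_le_pow_left₀ hLpos.le hL2 d
      _ = _ := by rw [Pw.pow h0]; congr 1; ring
  have hq12 := numq h0 hη3 hr4 hD1 g9
  have hw0 : 0 < 2 * (η * r ^ 2 / (16 * D ^ 2)) / (D + 1) ^ 2 := by positivity
  have htrerr : 8 / (2 * (η * r ^ 2 / (16 * D ^ 2)) / (D + 1) ^ 2) *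
      (Pool.Agent.W788.MFP.Four.NN d L * ν.real {x | tr t x ≠ x}) ≤ η / 40 := by
    have hN0 := (Pool.Agent.W788.MFP.Four.NN_pos (d := d) (L := L)).le
    have h3 : 8 / (2 * (η * r ^ 2 / (16 * D ^ 2)) / (D + 1) ^ 2) ≤ 8 * lam ^ (-12 : ℝ) := by
      rw [div_le_iff₀ hw0]
      have h4 : lam ^ (-12 : ℝ) * lam ^ 12 = 1 := by
        have h5 : lam ^ 12 = lam ^ (12 : ℝ) := by rw [← Real.rpow_natCast]; norm_num
        rw [h5, Pw.mul h0]; norm_num
      calc (8 : ℝ) = 8 * (lam ^ (-12 : ℝ) * lam ^ 12) := by rw [h4, mul_one]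
        _ ≤ 8 * (lam ^ (-12 : ℝ) * (2 * (η * r ^ 2 / (16 * D ^ 2)) / (D + 1) ^ 2)) := by
            have := Pw.pos h0 (-12)
            gcongr
        _ = _ := by ring
    calc _ ≤ (8 * lam ^ (-12 : ℝ)) * (lam ^ (-((135 * p + 22) * d : ℝ)) *
          (Mn * γ ^ n * lam ^ ((135 * p + 22) * d + 17 : ℝ))) := by
          have := Pw.pos h0 (-12)
          have := Pw.pos h0 (-((135 * p + 22) * d : ℝ))
          gcongr
      _ = 8 * (Mn * γ ^ n) * (lam ^ (-12 : ℝ) * lam ^ (-((135 * p + 22) * d : ℝ)) *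
          lam ^ ((135 * p + 22) * d + 17 : ℝ)) := by ring
      _ = 8 * (Mn * γ ^ n) * (lam * lam ^ (4 : ℝ)) := by
          rw [Pw.mul h0, Pw.mul h0]
          congr 1
          conv_rhs => rw [← Real.rpow_one lam, ← Real.rpow_mul h0.le, one_mul, Pw.mul h0]
          congr 1; ring
      _ = (16 * (Mn * γ ^ n) * lam) * lam ^ (4 : ℝ) / 2 := by ring
      _ ≤ 1 * lam ^ (4 : ℝ) / 2 := by
          have := Pw.pos h0 4
          gcongr
      _ ≤ η / 40 := by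
          have h4 : lam ^ (4 : ℝ) = lam ^ 3 * lam := by
            have : lam ^ (4 : ℝ) = lam ^ 4 := by rw [← Real.rpow_natCast]; norm_num
            rw [this]; ring
          rw [h4]
          have h5 : 20 * lam * lam ^ 3 ≤ 1 * η := by
            have := pow_pos h0 3
            gcongr
          linarith
  have hσ : 0 < 2 * η / (R + 1) ^ 2 := by positivity
  refine ⟨by rw [← hν]; exact hvr, 2 * η / (R + 1) ^ 2, hσ, ?_⟩
  intro ρ' _ hρ' z hz s hs0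
  have hs0' : IsFix ν ((lev ψ r).conv ρ')
      (wz (γ • (lap d - ContinuousMap.const _ a₁)) z) s := by
    subst hν
    exact hs0
  clear hs0
  rename' hs0' => hs0
  obtain ⟨zr1, zr2, zr3, zr4⟩ := hZR d R η hη0 hηR
  suffices h : s ∈ ZR d R η from (zr3 s h).1
  obtain ⟨hz1, hz2, hz3, hz4⟩ := hz
  have hprob : IsProbabilityMeasure (lev ψ r) := lev_prob ψ _
  have hsupp : ((lev ψ r).conv ρ') (Set.Icc (-(r + r / 8)) (r + r / 8))ᶜ = 0 :=
    conv_supp _ _ (lev_supp hψ hr0) hρ'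
  obtain ⟨K, hKd⟩ : ∃ K : C(UnitAddTorus (Fin d), ℝ),
    K = γ • (lap d - ContinuousMap.const _ a₁) := ⟨_, rfl⟩
  rw [← hKd] at hs0
  obtain ⟨q0, hq0, hq1, hq⟩ := hCX.2.2.1 (r + r / 8) (‖K‖ + ‖z‖) z.im hz3
  have hmain := (hFIX ν d ((lev ψ r).conv ρ') (r + r / 8) q0 (wz K z)
    hvr hsupp (hCX.2.2.2 d K z hz3.le) hq0 hq1 ?_).2.2
    (ZR d R η ∩ {s | HL (Lz cL η r D CK) (hz cL η r D CK) s})
    (zr1.inter (HL_closed _ _)) ?_ (fun s hs => hs.1.1) ?_ s hs0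
  · exact hmain.1
  · intro k a ha
    refine hq _ a ?_ ?_ (abs_le.2 ha)
    · refine (norm_sub_le _ _).trans ?_
      rw [Complex.norm_real]
      linarith [K.norm_coe_le_norm k]
    · simp
  · -- nonempty
    have hS1 : (-(η : ℂ) * Complex.I).im = -η := by simp
    have hS2 : ‖(-(η : ℂ) * Complex.I)‖ = η := by
      rw [norm_mul, norm_neg, Complex.norm_I, mul_one, Complex.norm_real, Real.norm_of_nonneg hη0.le]
    refine ⟨ContinuousMap.const _ (cayx (-(η : ℂ) * Complex.I) 0), ?_, ?_⟩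
    · refine zr4 _ (ContinuousMap.const _ (-(η : ℂ) * Complex.I)) fun k => ⟨rfl, ?_, ?_⟩
      · rw [ContinuousMap.const_apply, hS2]; exact hηR
      · rw [ContinuousMap.const_apply, hS1]
    · exact HL_const (hCX.1 _ 0 (by rw [hS1]; linarith)).1
  · rintro s ⟨hsZ, hsH⟩
    -- the mean of the small law
    have hmb8 : |∫ a, a ∂ρ'| ≤ r / 8 := mean_bd hρ'
    have hKk : ∀ k, K k = γ * (lap d k - a₁) := fun k => by rw [hKd]; rfl
    have hrl : γ * lam ≤ min a₁ (4 * d - a₂) := by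
      have := mul_le_mul_of_nonneg_left g14 hmn.le
      calc γ * lam = min a₁ (4 * d - a₂) * (γ / min a₁ (4 * d - a₂) * lam) := by field_simp
        _ ≤ min a₁ (4 * d - a₂) * 1 := this
        _ = _ := mul_one _
    have hrl2 : r ≤ γ * lam / 2 := by
      rw [hr]
      have : lam ^ (2 + κ) ≤ lam := by
        calc lam ^ (2 + κ) ≤ lam ^ (1 : ℝ) := Pw.anti h0 h1 (by linarith)
          _ = lam := Real.rpow_one _
      calc γ * (lam ^ (2 + κ) / 2) ≤ γ * (lam / 2) := by gcongr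
        _ = _ := by ring
    have hmg : |(∫ a, a ∂ρ') / γ| ≤ r := by
      rw [abs_div, abs_of_pos hγ, div_le_iff₀ hγ]
      calc |∫ a, a ∂ρ'| ≤ r / 8 := hmb8
        _ ≤ r * 1 := by linarith
        _ ≤ r * γ := by gcongr
    have hm1 := min_le_left a₁ (4 * d - a₂)
    have hm3 := min_le_right a₁ (4 * d - a₂)
    have hzg0 : 0 ≤ z.re / γ := by positivity
    have hzg1 : z.re / γ ≤ a₂ - a₁ := by
      rw [div_le_iff₀ hγ, hγdef]
      field_simp
      linarith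
    have habs := abs_le.1 hmg
    have hst := stepG hXB hCYL hZR hUX hCX hPSI hcL hψ L ν (ν.map (tr t))
      (a₁ := a₁) (γ := γ) (r := r) (η := η) (R := R) (D := D) (CK := CK)
      (eX := CE * lam ^ (2 + 2 * κ)) (A := cA * lam ^ (6 + 2 * κ)) (τ := η / 20)
      (Λ' := 8 * D * Lz cL η r D CK + 2 / hz cL η r D CK)
      hγ1 hr0 h100 hηR hR4 hD1 hCK1 ρ' hρ' ?_ z hz3 ?_ ?_ ?_ ?_ ?_ ?_ ?_ ?_ ?_ ?_ ?_ N3 N2.le s hsZ hsH
    · rw [← hKd] at hst
      exact hst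
    · -- Lipschitz
      intro h k
      rw [← hKd, hKk, hKk, ← mul_sub, abs_mul, abs_of_pos hγ, hCKd]
      have h3 := lap_lip h k
      have h4 : lap d (sft h k) - a₁ - (lap d k - a₁) = lap d (sft h k) - lap d k := by ring
      rw [h4]
      calc γ * |lap d (sft h k) - lap d k| ≤ γ * (4 * Real.pi * n1 h) := by gcongr
        _ = _ := by ring
    · -- size
      intro k
      rw [← hKd]
      have h3 := lap_mem d k
      have h4 : ‖((K k : ℝ) : ℂ) - z‖ ≤ |K k| + (|z.re| + |z.im|) := by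
        refine (norm_sub_le _ _).trans ?_
        rw [Complex.norm_real, Real.norm_eq_abs]
        gcongr
        exact Complex.norm_le_abs_re_add_abs_im z
      rw [abs_of_nonneg hz1, abs_of_pos hz3] at h4
      have h5 : |K k| ≤ γ * (4 * d) := by
        rw [hKk, abs_mul, abs_of_pos hγ]
        gcongr
        rw [abs_le]
        constructor <;> linarith [h3.1, h3.2]
      have h6 : (4 : ℝ) * d ≤ γ * (4 * d) := le_mul_of_one_le_left (by positivity) hγ1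
      rw [hDd]
      linarith
    · -- torus
      intro X hX1 hX2 hX3
      have hres := hT2 lam h0 g2 L hL20 (by
          refine hL2.trans (le_of_eq ?_)
          congr 1) (ν.map (tr t)) (by rw [← ht]; exact T1) T2 hcv1 hcv2
        (a₁ + z.re / γ - (∫ a, a ∂ρ') / γ) z.im X (by linarith [habs.2]) (by linarith [habs.1])
        hz3.le hz4 hX1 hX2 (by rw [← hR]; exact hX3)
      intro k
      obtain ⟨r1, r2⟩ := hres k
      refine ⟨?_, ?_⟩
      · rw [hη]; linarith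
      · rw [hR]; exact r2
    · -- transfer
      intro m k₀ j hmn' hml
      have hw : 0 < 2 * (η * r ^ 2 / (16 * D ^ 2)) / (D + 1) ^ 2 := by positivity
      have hq01 : 0 ≤ 1 - 2 * (η * r ^ 2 / (16 * D ^ 2)) / (D + 1) ^ 2 := (norm_nonneg _).trans hmn'
      have hL0' : 0 ≤ 8 * D * Lz cL η r D CK + 2 / hz cL η r D CK := by positivity
      have hfq : ∀ k : T d L, ‖fib (m : UnitAddTorus (Fin d) → ℂ) k₀ k‖ ≤ 1 - 2 * (η * r ^ 2 / (16 * D ^ 2)) / (D + 1) ^ 2 :=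
        fun k => (m.norm_coe_le_norm _).trans hmn'
      have htr1 := psL_trunc ν (tr_meas t) hq01 (by linarith) hfq j
      rw [sub_sub_cancel] at htr1
      have htr2 := htr1.trans htrerr
      suffices hmm : ‖psi ν m (fun i => k₀ i + ZMod.toAddCircle (j i)) - psL ν (fib m k₀) j‖ ≤
          η / 40 by
        have h3 := norm_add_le (psi ν m (fun i => k₀ i + ZMod.toAddCircle (j i)) -
          psL ν (fib m k₀) j) (psL ν (fib m k₀) j - psL (ν.map (tr t)) (fib m k₀) j)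
        rw [sub_add_sub_cancel] at h3
        linarith
      refine htra L ν m _ _ (η / 40) k₀ j hq01 (by linarith) hmn' hL0'
        (by positivity) (by linarith) hml ?_
      rw [sub_sub_cancel]
      have h134 : (1 + (8 * D * Lz cL η r D CK + 2 / hz cL η r D CK)) /
          (η / 40 * (2 * (η * r ^ 2 / (16 * D ^ 2)) / (D + 1) ^ 2)) ≤ lam⁻¹ ^ 135 := by
        have h3 : (1 + (8 * D * Lz cL η r D CK + 2 / hz cL η r D CK)) /
          (η / 40 * (2 * (η * r ^ 2 / (16 * D ^ 2)) / (D + 1) ^ 2)) =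
          2 * ((1 + (8 * D * Lz cL η r D CK + 2 / hz cL η r D CK)) /
          (η / 20 * (2 * (η * r ^ 2 / (16 * D ^ 2)) / (D + 1) ^ 2))) := by
          field_simp
          norm_num
        have h4 : 2 ≤ lam⁻¹ := by
          rw [le_inv_comm₀ (by norm_num) h0]; linarith
        have h5 : 0 < lam⁻¹ := inv_pos.2 h0
        rw [h3]
        calc _ ≤ lam⁻¹ * lam⁻¹ ^ 134 := by
              have h6 : 0 ≤ (1 + (8 * D * Lz cL η r D CK + 2 / hz cL η r D CK)) /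
                (η / 20 * (2 * (η * r ^ 2 / (16 * D ^ 2)) / (D + 1) ^ 2)) := by positivity
              exact mul_le_mul h4 N4 h6 h5.le
          _ = _ := by ring
      calc C * ((1 + (8 * D * Lz cL η r D CK + 2 / hz cL η r D CK)) /
          (η / 40 * (2 * (η * r ^ 2 / (16 * D ^ 2)) / (D + 1) ^ 2))) ^ p
          ≤ C * (lam⁻¹ ^ 135) ^ p := by
            have h3 : 0 ≤ (1 + (8 * D * Lz cL η r D CK + 2 / hz cL η r D CK)) /
              (η / 40 * (2 * (η * r ^ 2 / (16 * D ^ 2)) / (D + 1) ^ 2)) := by positivity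
            have := pow_le_pow_left₀ h3 h134 p
            gcongr
        _ = C * lam ^ (-(135 * p : ℝ)) := by
            congr 1
            rw [← pow_mul, Real.rpow_neg h0.le, inv_pow]
            congr 1
            rw [← Real.rpow_natCast]
            push_cast
            rfl
        _ = (C * lam) * lam ^ (-(135 * p + 1 : ℝ)) := by
            rw [mul_assoc]
            congr 1
            conv_rhs => rw [← Real.rpow_one lam, ← Real.rpow_mul h0.le, one_mul, Pw.mul h0]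
            congr 1; ring
        _ ≤ 1 * lam ^ (-(135 * p + 1 : ℝ)) := by
            have := Pw.pos h0 (-(135 * p + 1 : ℝ))
            gcongr
        _ ≤ lam ^ (-(135 * p + 21 : ℝ)) := by
            rw [one_mul]
            exact Pw.anti h0 h1 (by linarith)
        _ ≤ L := hL1
    · -- e1
      have h3 : 50 * r ^ 2 / η = 25 * γ ^ 2 / c₁ * lam ^ (2 + 2 * κ) := by
        have h4 : (lam ^ (2 + κ)) ^ 2 = lam ^ (2 + 2 * κ) * lam ^ 2 := by
          rw [Pw.pow h0, e2, Pw.mul h0]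
          congr 1
          push_cast
          ring
        rw [hr, hη, mul_pow, div_pow, h4]
        field_simp
        norm_num
      have h4 : 13 * d * γ / L ≤ lam ^ (2 + 2 * κ) :=
        hLd'.trans (Pw.anti h0 h1 (by linarith))
      rw [h3, hCEd, add_mul, one_mul]
      linarith
    · -- e2
      rw [hcAd, hη, hr]
      have h4 : (lam ^ (2 + κ)) ^ 2 * lam ^ 2 = lam ^ (6 + 2 * κ) := by
        rw [Pw.pow h0, e2, Pw.mul h0]
        congr 1
        push_cast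
        ring
      rw [← h4]
      apply le_of_eq
      ring
    · exact mul_nonneg hcA.le (Pw.pos h0 _).le
    · -- e3
      rw [hR, Pw.pow h0]
      calc cA * lam ^ (6 + 2 * κ) = (cA * lam ^ κ) * lam ^ (6 + κ) := by
            rw [mul_assoc, Pw.mul h0]; congr 2; ring
        _ ≤ 1 * lam ^ (6 + κ) := by
            have := Pw.pos h0 (6 + κ)
            gcongr
        _ ≤ lam ^ ((3 : ℕ) * (2 - u)) := by
            rw [one_mul]
            refine Pw.anti h0 h1 ?_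
            push_cast
            linarith
    · -- e4
      have h3 : 13 * d * γ / L ≤ R / 2 := by
        refine hLd'.trans ?_
        rw [hR]
        calc lam ^ (20 : ℝ) ≤ lam ^ (3 - u) := Pw.anti h0 h1 (by linarith)
          _ = lam ^ (2 - u) * lam := by
            conv_rhs => rw [← Real.rpow_one lam, ← Real.rpow_mul h0.le, one_mul, Pw.mul h0]
            congr 1; ring
          _ ≤ lam ^ (2 - u) * (1 / 2) := by
            have := Pw.pos h0 (2 - u)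
            gcongr
          _ = _ := by ring
      linarith
    · linarith
    · have : 0 ≤ 2 / hz cL η r D CK := by positivity
      linarith
    · have : 0 ≤ 8 * D * Lz cL η r D CK := by positivity
      linarith

end

end Pool.Agent.Run7.h442.BG
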