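import Pool.Agent.Run7.h442.BG.ShG
import Pool.Agent.Run7.h442.BG.GappG
import Pool.Agent.N659.HB.FinG

/-!
Project BG: assembly of the theorem for symmetric laws with finite moments.
-/

set_option autoImplicit false

namespace Pool.Agent.Run7.h442.BG

open MeasureTheory Filter Pool.Agent.W792.LL Pool.Agent.W792.WA Pool.Agent.N659.HB
open Pool.Agent.Run7.h442.BA
open scoped Topology ENNReal

noncomputable section

/-- The theorem for symmetric laws with finite moments, adjacency operator. -/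
def S_BGK : Prop :=
  ∀ (d : ℕ), 3 ≤ d → ∃ Cd : ℝ, 0 < Cd ∧ ∀ (ν : Measure ℝ) [IsProbabilityMeasure ν] (a κ : ℝ),
    ν.map (fun x => -x) = ν → (∀ n : ℕ, Integrable (fun x : ℝ => |x| ^ n) ν) → ν {0} < 1 →
    0 < a → a < 2 * d → κ < 1 / 28 →
    ∃ sg₀ : ℝ, 0 < sg₀ ∧ sg₀ < 1 ∧ ∀ sg : ℝ, 0 < sg → sg ≤ sg₀ →
      ∃ b : C(ℝ, ℝ), (∀ t, |b t| ≤ sg ^ (2 + κ)) ∧
      (∀ x : Fin d → ℤ,
        ‖UnitAddTorus.mFourierCoeff (fun k : UnitAddTorus (Fin d) => ((b (adjm d k) : ℝ) : ℂ)) x‖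
          ≤ Cd * sg ^ (2 + κ) / (1 + ‖x‖) ^ ((d : ℝ) / 3)) ∧
      ∀ᵐ v ∂(Pn ν (Fin d → ℤ)), ACIK (adjm d + b.comp (adjm d)) sg v (-a) a

/-- The theorem, `κ` bounded below. -/
theorem bgk0 (hG : S_GAPPG) (hSH : Pool.Agent.Run7.h442.BA.S_SHF) (hUUC : S_UUC) (hCX : S_CX)
    (hC : S_CHK) (hAe : S_AEQK) (hAf : S_AFF) (hW : S_WS)
    (hψ : ∃ ψ : C(UnitAddCircle, ℝ), IsSemi ψ ∧ ∀ d : ℕ, 0 < d → ∃ C : ℝ, 0 < C ∧
      ∀ (M : ℕ) (x : Fin d → ℤ),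
      ‖UnitAddTorus.mFourierCoeff (fun k : UnitAddTorus (Fin d) =>
        ((ψ ((M * lap d k / (2 * Real.pi) : ℝ) : UnitAddCircle) : ℝ) : ℂ)) x‖
        ≤ C / (1 + ‖x‖) ^ ((d : ℝ) / 3)) (d : ℕ) (hd : 3 ≤ d) : ∃ Cd : ℝ, 0 < Cd ∧
    ∀ (ν : Measure ℝ) [IsProbabilityMeasure ν] (a κ : ℝ),
    ν.map (fun x => -x) = ν → (∀ n : ℕ, Integrable (fun x : ℝ => |x| ^ n) ν) → ν {0} < 1 →
    0 < a → a < 2 * d → 1 / 50 ≤ κ → κ < 1 / 28 →
    ∃ sg₀ : ℝ, 0 < sg₀ ∧ sg₀ < 1 ∧ ∀ sg : ℝ, 0 < sg → sg ≤ sg₀ →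
      ∃ b : C(ℝ, ℝ), (∀ t, |b t| ≤ sg ^ (2 + κ)) ∧
      (∀ x : Fin d → ℤ,
        ‖UnitAddTorus.mFourierCoeff (fun k : UnitAddTorus (Fin d) => ((b (adjm d k) : ℝ) : ℂ)) x‖
          ≤ Cd * sg ^ (2 + κ) / (1 + ‖x‖) ^ ((d : ℝ) / 3)) ∧
      ∀ᵐ v ∂(Pn ν (Fin d → ℤ)), ACIK (adjm d + b.comp (adjm d)) sg v (-a) a := by
  have hd0 : 0 < d := by omega
  have hd1 : (0 : ℝ) < d := by exact_mod_cast hd0
  obtain ⟨ψ, hψ1, hψ2⟩ := hψ
  obtain ⟨Cd, hCd, hCd1⟩ := hψ2 d hd0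
  refine ⟨Cd, hCd, fun ν _ a κ hsym hmom hat ha ha2 hκ1 hκ2 => ?_⟩
  set a' : ℝ := (a + 2 * d) / 2 with ha'
  have ha'1 : a ≤ a' := by rw [ha']; linarith
  have ha'2 : a' < 2 * d := by rw [ha']; linarith
  have ha'0 : 0 < a' := by linarith
  set γ : ℝ := 2 * d / a' with hγdef
  have hγ : 0 < γ := by positivity
  have hγ2 : γ = 4 * d / ((2 * d + a') - (2 * d - a')) := by
    rw [hγdef]
    have : (2 * (d : ℝ) + a') - (2 * d - a') = 2 * a' := by ring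
    rw [this]
    field_simp
    norm_num
  obtain ⟨sg₀, hl0, hl1, hlam⟩ := hG d ν (2 * d - a') (2 * d + a') γ κ hd hsym hmom hat
    (by linarith) (by linarith) (by linarith) hγ2 hκ1 hκ2
  refine ⟨sg₀, hl0, hl1, fun sg hp hle => ?_⟩
  have hgs : 0 < γ * sg := by positivity
  have hm2 : Measurable fun x : ℝ => (γ * sg) * x := by fun_prop
  have hP2 : IsProbabilityMeasure (ν.map fun x => (γ * sg) * x) :=
    Measure.isProbabilityMeasure_map hm2.aemeasurable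
  obtain ⟨hvr, σ, hσ, hgap⟩ := hlam sg hp hle ψ hψ1
  set l : ℝ := sg ^ (2 + κ) / 2 with hl
  have hlpos : 0 < l := by
    have := Real.rpow_pos_of_pos hp (2 + κ)
    positivity
  have h2l : 2 * l = sg ^ (2 + κ) := by rw [hl]; ring
  set m : ℝ := -a' with hm
  have hgap' : ∀ (ρ' : Measure ℝ) [IsProbabilityMeasure ρ'],
      ρ' (Set.Icc (-((γ * l) / 8)) ((γ * l) / 8))ᶜ = 0 →
      ∀ z ∈ Zs d, ∀ s, IsFix (ν.map fun x => (γ * sg) * x) ((lev ψ (γ * l)).conv ρ')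
        (wz (γ • (adjm d - ContinuousMap.const _ m)) z) s → ‖s‖ ≤ 1 - σ := by
    intro ρ' _ hρ z hz s' hs'
    have hprob : IsProbabilityMeasure (lev ψ (γ * l)) :=
      Pool.Agent.N163.HB.GAPA.lev_prob ψ _
    have hsupp : ((lev ψ (γ * l)).conv ρ') (Set.Icc (-(γ * l + γ * l / 8)) (γ * l + γ * l / 8))ᶜ = 0 :=
      Pool.Agent.N163.HB.GAPA.conv_supp _ _ (Pool.Agent.N163.HB.GAPA.lev_supp hψ1 (by positivity)) hρ
    exact gap_adj hSH hUUC hCX _ _ hsupp z hz.2.2.1 (fun s hs => hgap ρ' hρ z hz s hs) s' hs'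
  obtain ⟨b, hb1', hb2⟩ := of_gapK hC hAe hAf hψ1 hd0 (adjm d) ν γ sg l m hγ hp
    hlpos hvr hσ (fun ρ' _ h z hz s hs => hgap' ρ' h z hz s hs)
  set f : C(ℝ, ℝ) := ⟨fun t => 2 * (d : ℝ) - t, by fun_prop⟩ with hf
  refine ⟨b.comp f, fun t => ?_, fun x => ?_, ?_⟩
  · rw [← h2l]
    exact G16.IsSum.bound hψ1.bound hb1' _
  · have h1 := hW d ψ Cd (2 * l) b hd0 hCd.le (by positivity) hCd1 hb1' x
    have e : (fun k : UnitAddTorus (Fin d) => (((b.comp f) (adjm d k) : ℝ) : ℂ))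
        = fun k => ((b (lap d k) : ℝ) : ℂ) := by
      funext k
      have : f (adjm d k) = lap d k := by
        simp only [hf, adjm, ContinuousMap.coe_mk, ContinuousMap.sub_apply,
          ContinuousMap.const_apply]
        ring
      rw [ContinuousMap.comp_apply, this]
    rw [e]
    refine h1.trans (le_of_eq ?_)
    rw [h2l]; ring
  · have e3 : m + 4 * d / γ = a' := by
      rw [hγdef, hm]; field_simp; ring
    have e4 : (b.comp f).comp (adjm d) = gK b d := by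
      ext k
      have : f (adjm d k) = lap d k := by
        simp only [hf, adjm, ContinuousMap.coe_mk, ContinuousMap.sub_apply,
          ContinuousMap.const_apply]
        ring
      simp only [gK, ContinuousMap.comp_apply]
      rw [← this]
    rw [e4]
    filter_upwards [hb2] with v hv
    rw [e3] at hv
    exact ACIK_mono hv (by rw [hm]; linarith) (by linarith)

/-- The theorem. -/
theorem bgk (hG : S_GAPPG) (hSH : Pool.Agent.Run7.h442.BA.S_SHF) (hUUC : S_UUC) (hCX : S_CX)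
    (hC : S_CHK) (hAe : S_AEQK) (hAf : S_AFF) (hW : S_WS)
    (hψ : ∃ ψ : C(UnitAddCircle, ℝ), IsSemi ψ ∧ ∀ d : ℕ, 0 < d → ∃ C : ℝ, 0 < C ∧
      ∀ (M : ℕ) (x : Fin d → ℤ),
      ‖UnitAddTorus.mFourierCoeff (fun k : UnitAddTorus (Fin d) =>
        ((ψ ((M * lap d k / (2 * Real.pi) : ℝ) : UnitAddCircle) : ℝ) : ℂ)) x‖
        ≤ C / (1 + ‖x‖) ^ ((d : ℝ) / 3)) : S_BGK := by
  intro d hd
  obtain ⟨Cd, hCd, H⟩ := bgk0 hG hSH hUUC hCX hC hAe hAf hW hψ d hd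
  refine ⟨Cd, hCd, fun ν _ a κ hsym hmom hat ha ha2 hκ => ?_⟩
  obtain ⟨lam₀, h0, h1, H1⟩ := H ν a (max κ (1 / 50)) hsym hmom hat ha ha2
    (le_max_right _ _) (max_lt hκ (by norm_num))
  refine ⟨lam₀, h0, h1, fun lam hl hle => ?_⟩
  obtain ⟨b, hb1, hb2, hb3⟩ := H1 lam hl hle
  have hmono : lam ^ (2 + max κ (1 / 50)) ≤ lam ^ (2 + κ) :=
    Real.rpow_le_rpow_of_exponent_ge hl (hle.trans h1.le) (by linarith [le_max_left κ (1 / 50)])
  refine ⟨b, fun t => (hb1 t).trans hmono, fun x => (hb2 x).trans ?_, hb3⟩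
  gcongr

end

end Pool.Agent.Run7.h442.BG
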