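import Pool.Agent.Run7.h442.BA.All
import Pool.Agent.Run7.h442.BG.FinG

/-!
All parts of the project BG.
-/

set_option autoImplicit false

namespace Pool.Agent.Run7.h442.BG.Al

open Pool.Agent.W792.LL Pool.Agent.W792.WA Pool.Agent.N659.HB
open Pool.Agent.Run7.h442.BA Pool.Agent.Run7.h442.BA.Al Pool.Agent.Run7.h442.BG

theorem torT : S_TORG := torG det cntl cyl

theorem gap : S_GAPPG := gappG torT lipz xb tra cyl Pool.Agent.N659.HB.Al.zr
  Pool.Agent.N659.HB.Al.ux Pool.Agent.W792.WA.Al.cx Pool.Agent.W792.WA.Al.psi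
  Pool.Agent.W792.WA.Al.fix Pool.Agent.W792.WA.Al.cay

theorem bgkT : S_BGK := bgk gap shf Pool.Agent.W792.WA.Al.uuc Pool.Agent.W792.WA.Al.cx
  Pool.Agent.N659.HB.Al.chk Pool.Agent.W792.WA.Al.aeqk Pool.Agent.W792.WA.Al.aff WSP.main
  (Pool.Agent.W792.WA.Al.exists_lv Pool.Agent.W915.WA.WH.main Pool.Agent.W332.WA.WB.main
    Pool.Agent.W792.WA.Al.wd)

end Pool.Agent.Run7.h442.BG.Al
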