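import Pool.Agent.Run7.h442.BA.GappA
import Pool.Agent.N659.HB.Stm4

/-! Project BG: the adjacency operator is a shift of the Laplacian. -/

set_option autoImplicit false

namespace Pool.Agent.Run7.h442.BG

open MeasureTheory Filter Pool.Agent.W792.LL Pool.Agent.W792.WA Pool.Agent.N659.HB
open Pool.Agent.Run7.h442.BA
open scoped Topology Matrix

noncomputable section

/-- Solutions and shifts of the momentum. -/
theorem isFix_shift (hSH : Pool.Agent.Run7.h442.BA.S_SHF) (hUUC : S_UUC) (hCX : S_CX)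
    (ν : Measure ℝ) [IsProbabilityMeasure ν] {d : ℕ} (ρ : Measure ℝ) [IsProbabilityMeasure ρ]
    {C : ℝ} (hC : ρ (Set.Icc (-C) C)ᶜ = 0) (K K' : C(UnitAddTorus (Fin d), ℝ)) (h : Fin d → ℝ)
    (hK : ∀ k, K' k = K (sft h k)) (z : ℂ) (hz : 0 < z.im) (s s' : C(UnitAddTorus (Fin d), ℂ))
    (hs' : ∀ k, s' k = s (sft h k)) (hs : IsFix ν ρ (wz K z) s) : IsFix ν ρ (wz K' z) s' := by
  have hbd : ∀ K : C(UnitAddTorus (Fin d), ℝ), ∃ q : ℝ, 0 ≤ q ∧ q < 1 ∧
      ∀ k, ∀ a ∈ Set.Icc (-C) C, ‖wz K z k a‖ ≤ q := by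
    intro K
    obtain ⟨q0, hq0, hq1, hq⟩ := hCX.2.2.1 C (‖K‖ + ‖z‖) z.im hz
    refine ⟨q0, hq0, hq1, fun k a ha => ?_⟩
    refine hq _ a ?_ ?_ (abs_le.2 ha)
    · refine (norm_sub_le _ _).trans ?_
      rw [Complex.norm_real]
      linarith [K.norm_coe_le_norm k]
    · simp
  obtain ⟨hs1, hs2⟩ := hs
  have hs1' : ‖s'‖ ≤ 1 := by
    rw [ContinuousMap.norm_le _ zero_le_one]
    intro k
    rw [hs']
    exact (s.norm_coe_le_norm _).trans hs1
  obtain ⟨q, hq0, hq1, hq⟩ := hbd K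
  obtain ⟨q', hq0', hq1', hq'⟩ := hbd K'
  have hmul : ∀ {a b : ℝ}, 0 ≤ a → a < 1 → b ≤ 1 → a * b < 1 := by
    intro a b h1 h2 h3
    calc a * b ≤ a * 1 := mul_le_mul_of_nonneg_left h3 h1
      _ < 1 := by linarith
  obtain ⟨u1, u2⟩ := hUUC d ρ C q (wz K z) s hC (hCX.2.2.2 d K z hz.le) hq0 hq1.le hq hs1
    (hmul hq0 hq1 hs1)
  obtain ⟨u1', -⟩ := hUUC d ρ C q' (wz K' z) s' hC (hCX.2.2.2 d K' z hz.le) hq0' hq1'.le hq' hs1'
    (hmul hq0' hq1' hs1')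
  refine ⟨hs1', ?_⟩
  have h1 : ∀ k, UU ρ (wz K' z) s' k = UU ρ (wz K z) s (sft h k) := by
    intro k
    rw [u1', u1, hs']
    have h2 : wz K' z k = wz K z (sft h k) := by
      funext a
      unfold wz
      rw [hK]
    rw [h2]
  ext k
  rw [hSH ν d (UU ρ (wz K z) s) (UU ρ (wz K' z) s') h (u2.trans_lt hq1) h1 k, hs2, hs']

theorem lap_half {d : ℕ} (k : UnitAddTorus (Fin d)) :
    lap d (sft (fun _ => (1 / 2 : ℝ)) k) = 4 * d - lap d k := by
  have h1 : ∀ k : UnitAddTorus (Fin d), lap d k = ∑ i, (2 - 2 * (fourier 1 (k i)).re) :=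
    fun k => rfl
  have h2 : ∀ i, (fourier 1 (sft (fun _ => (1 / 2 : ℝ)) k i) : ℂ) = -fourier 1 (k i) := by
    intro i
    have h3 := fourier_add_half_inv_index (T := 1) (n := 1) one_ne_zero one_pos (k i)
    unfold sft
    have h4 : ((1 / 2 : ℝ) : UnitAddCircle) = (((1 : ℝ) / 2 / ((1 : ℤ) : ℝ) : ℝ) : AddCircle (1 : ℝ)) := by
      norm_num
    simp only
    rw [h4]
    exact h3
  rw [h1, h1, eq_sub_iff_add_eq, ← Finset.sum_add_distrib]
  rw [Finset.sum_congr rfl (g := fun _ => (4 : ℝ)) fun i _ => by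
    rw [h2, Complex.neg_re]; ring]
  rw [Finset.sum_const, Finset.card_univ, Fintype.card_fin, nsmul_eq_mul]
  ring

theorem sft_sft {d : ℕ} (k : UnitAddTorus (Fin d)) :
    sft (fun _ => (-(1 / 2) : ℝ)) (sft (fun _ => (1 / 2 : ℝ)) k) = k := by
  funext i
  unfold sft
  simp only
  rw [add_assoc, ← AddCircle.coe_add, add_neg_cancel, AddCircle.coe_zero, add_zero]

/-- The gap for the adjacency operator from the gap for the Laplacian. -/
theorem gap_adj (hSH : Pool.Agent.Run7.h442.BA.S_SHF) (hUUC : S_UUC) (hCX : S_CX)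
    (ν : Measure ℝ) [IsProbabilityMeasure ν] {d : ℕ} (ρ : Measure ℝ) [IsProbabilityMeasure ρ]
    {C : ℝ} (hC : ρ (Set.Icc (-C) C)ᶜ = 0) {γ a' σ : ℝ} (z : ℂ) (hz : 0 < z.im)
    (hgap : ∀ s, IsFix ν ρ (wz (γ • (lap d - ContinuousMap.const _ (2 * d - a'))) z) s →
      ‖s‖ ≤ 1 - σ) (s : C(UnitAddTorus (Fin d), ℂ))
    (hs : IsFix ν ρ (wz (γ • (adjm d - ContinuousMap.const _ (-a'))) z) s) : ‖s‖ ≤ 1 - σ := by
  obtain ⟨s', hs'⟩ : ∃ s' : C(UnitAddTorus (Fin d), ℂ),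
      ∀ k, s' k = s (sft (fun _ => (-(1 / 2) : ℝ)) k) :=
    ⟨⟨fun k => s (sft (fun _ => (-(1 / 2) : ℝ)) k), s.continuous.comp (cont_sft _)⟩, fun k => rfl⟩
  have h1 := hgap s' (isFix_shift hSH hUUC hCX ν ρ hC _ _ (fun _ => (-(1 / 2) : ℝ)) ?_ z hz s s'
    hs' hs)
  · refine le_trans ?_ h1
    rw [ContinuousMap.norm_le _ (norm_nonneg _)]
    intro k
    have h2 := hs' (sft (fun _ => (1 / 2 : ℝ)) k)
    rw [sft_sft] at h2
    rw [← h2]
    exact s'.norm_coe_le_norm _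
  · intro k
    simp only [adjm, ContinuousMap.smul_apply, ContinuousMap.sub_apply, ContinuousMap.const_apply,
      smul_eq_mul]
    have h2 := lap_half (sft (fun _ => (-(1 / 2) : ℝ)) k)
    have h3 : sft (fun _ => (1 / 2 : ℝ)) (sft (fun _ => (-(1 / 2) : ℝ)) k) = k := by
      funext i
      unfold sft
      simp only
      rw [add_assoc, ← AddCircle.coe_add, neg_add_cancel, AddCircle.coe_zero, add_zero]
    rw [h3] at h2
    rw [h2]
    ring

end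

end Pool.Agent.Run7.h442.BG
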