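import Pool.Agent.Run7.h442.BA.GappC

/-! Project BG: the gap, the invariant set, two laws. -/

set_option autoImplicit false

namespace Pool.Agent.Run7.h442.BG

open MeasureTheory Filter Pool.Agent.W792.LL Pool.Agent.W792.WA Pool.Agent.N659.HB
open Pool.Agent.Run7.h442.BA
open Pool.Agent.W788.MFP.Four (T e NN adj)
open Pool.Agent.W788.BK (PP nsq)
open Pool.Agent.N163.HB.GAPA
open scoped Topology Matrix

noncomputable section

/-- one application of the self-energy -/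
theorem stepG (hXB : S_XB) (hCYL : S_CYL) (hZR : S_ZR) (hUX : S_UX) (hCX : S_CX)
    (hPSI : S_PSI) {cL : ℝ}
    (hcL : ∀ (ψ : C(UnitAddCircle, ℝ)), IsSemi ψ → ∀ (ν : Measure ℝ)
      [IsProbabilityMeasure ν] (d : ℕ) (K : C(UnitAddTorus (Fin d), ℝ)) (r η R D CK : ℝ)
      (ρ' : Measure ℝ) [IsProbabilityMeasure ρ'], 0 < r → 100 * r ≤ η → η ≤ R → R ≤ 1 → 1 ≤ D →
      1 ≤ CK → ρ' (Set.Icc (-(r / 8)) (r / 8))ᶜ = 0 →
      (∀ (h : Fin d → ℝ) k, |K (sft h k) - K k| ≤ CK * n1 h) → ∀ z : ℂ, 0 < z.im →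
      (∀ k, ‖(K k : ℂ) - z‖ + R ≤ D) →
      ∀ S : C(UnitAddTorus (Fin d), ℂ), (∀ k, ‖S k‖ ≤ R ∧ (S k).im ≤ -η) →
      ∀ s : C(UnitAddTorus (Fin d), ℂ), (∀ k, s k = cayx (S k) 0) →
        HL (Lz cL η r D CK) (hz cL η r D CK) s →
      (∀ (h : Fin d → ℝ) k, n1 h ≤ hz cL η r D CK →
        ‖xm ((lev ψ r).conv ρ') ((K (sft h k) : ℂ) - z) (S (sft h k))
          - xm ((lev ψ r).conv ρ') ((K k : ℂ) - z) (S k)‖ ≤ 4 * D * Lz cL η r D CK * n1 h) ∧
      HL (Lz cL η r D CK) (hz cL η r D CK) (psi ν (UU ((lev ψ r).conv ρ') (wz K z) s)))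
    {ψ : C(UnitAddCircle, ℝ)} (hψ : IsSemi ψ) {d : ℕ} (L : ℕ) [NeZero L] (ν : Measure ℝ)
    [IsProbabilityMeasure ν] (ν' : Measure ℝ) [IsProbabilityMeasure ν'] {a₁ γ r η R D CK eX A τ Λ' : ℝ} (hγ : 1 ≤ γ) (hr : 0 < r)
    (h100 : 100 * r ≤ η) (hηR : η ≤ R) (hR4 : R ≤ 1 / 4) (hD1 : 1 ≤ D) (hCK : 1 ≤ CK)
    (ρ' : Measure ℝ) [IsProbabilityMeasure ρ'] (hρ' : ρ' (Set.Icc (-(r / 8)) (r / 8))ᶜ = 0)
    (hKL : ∀ (h : Fin d → ℝ) k,
      |(γ • (lap d - ContinuousMap.const _ a₁) : C(UnitAddTorus (Fin d), ℝ)) (sft h k)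
        - (γ • (lap d - ContinuousMap.const _ a₁) : C(UnitAddTorus (Fin d), ℝ)) k| ≤ CK * n1 h)
    (z : ℂ) (hzi : 0 < z.im)
    (hD : ∀ k, ‖(((γ • (lap d - ContinuousMap.const _ a₁) : C(UnitAddTorus (Fin d), ℝ)) k : ℝ) : ℂ)
      - z‖ + R ≤ D)
    (hTOR : ∀ X : T d L → ℂ,
      (∀ k, ‖X k - (((γ * (2 * d - adj k - (a₁ + z.re / γ - (∫ a, a ∂ρ') / γ)) : ℝ) : ℂ)
        - z.im * Complex.I)‖ ≤ eX) → (∀ k, z.im ≤ -(X k).im) →
      (∀ k, A / (|γ * (2 * d - adj k - (a₁ + z.re / γ - (∫ a, a ∂ρ') / γ))| + R) ^ 2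
        ≤ -(X k).im) → ∀ k, (sm ν' X k).im ≤ -(2 * η) ∧ ‖sm ν' X k‖ ≤ R / 2)
    (hTRA : ∀ (m : C(UnitAddTorus (Fin d), ℂ)) (k₀ : UnitAddTorus (Fin d)) (j : T d L),
      ‖m‖ ≤ 1 - 2 * (η * r ^ 2 / (16 * D ^ 2)) / (D + 1) ^ 2 →
      (∀ (h : Fin d → ℝ) k, ‖m (sft h k) - m k‖ ≤ Λ' * n1 h) →
      ‖psi ν m (fun i => k₀ i + ZMod.toAddCircle (j i)) - psL ν' (fib m k₀) j‖ ≤ τ)
    (e1 : 50 * r ^ 2 / η + 13 * d * γ / L ≤ eX) (e2 : A ≤ η * r ^ 2 / 144) (hA : 0 ≤ A)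
    (e3 : A ≤ R ^ 3) (e4 : r / 8 + 13 * d * γ / L ≤ R) (e5 : 20 * τ ≤ η)
    (e6 : 8 * D * Lz cL η r D CK ≤ Λ') (e7 : 2 / hz cL η r D CK ≤ Λ')
    (hh0 : 0 < hz cL η r D CK) (hL0 : 0 ≤ Lz cL η r D CK)
    (s : C(UnitAddTorus (Fin d), ℂ)) (hs : s ∈ ZR d R η)
    (hs2 : HL (Lz cL η r D CK) (hz cL η r D CK) s) :
    psi ν (UU ((lev ψ r).conv ρ') (wz (γ • (lap d - ContinuousMap.const _ a₁)) z) s) ∈ ZR d R η ∧
      HL (Lz cL η r D CK) (hz cL η r D CK)
        (psi ν (UU ((lev ψ r).conv ρ') (wz (γ • (lap d - ContinuousMap.const _ a₁)) z) s)) := by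
  have hη : 0 < η := by linarith
  have hγ0 : 0 < γ := by linarith
  have hLp : (0 : ℝ) < L := by exact_mod_cast Nat.pos_of_ne_zero (NeZero.ne L)
  have hprob : IsProbabilityMeasure (lev ψ r) := lev_prob ψ _
  have hsupp : ((lev ψ r).conv ρ') (Set.Icc (-(r + r / 8)) (r + r / 8))ᶜ = 0 :=
    conv_supp _ _ (lev_supp hψ hr) hρ'
  set K : C(UnitAddTorus (Fin d), ℝ) := γ • (lap d - ContinuousMap.const _ a₁) with hK
  set mb : ℝ := ∫ a, a ∂ρ' with hmb
  have hmb8 : |mb| ≤ r / 8 := mean_bd hρ'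
  obtain ⟨-, -, zr3, zr4⟩ := hZR d R η hη hηR
  obtain ⟨-, S, hS⟩ := zr3 s hs
  obtain ⟨L1, L2⟩ := hcL ψ hψ ν d K r η R D CK ρ' hr h100 hηR (by linarith) hD1 hCK hρ' hKL z hzi hD
    S (fun k => ⟨(hS k).2.1, (hS k).2.2⟩) s (fun k => (hS k).1) hs2
  refine ⟨?_, L2⟩
  have hxim : ∀ k, ((K k : ℂ) - z).im = -z.im := by
    intro k; rw [Complex.sub_im, Complex.ofReal_im]; ring
  have hxS : ∀ k, ‖((K k : ℂ) - z) + S k‖ ≤ D := fun k =>
    (norm_add_le _ _).trans (by linarith [hD k, (hS k).2.1])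
  -- the effective symbol
  have hxb := fun k => hXB ψ hψ r η ρ' hr h100 hρ' ((K k : ℂ) - z) (S k)
    (by rw [hxim]; linarith) (hS k).2.2
  have hux := fun k => hUX ((lev ψ r).conv ρ') _ ((K k : ℂ) - z) (S k) hsupp
    (by rw [hxim]; linarith) (by linarith [(hS k).2.2])
  set X : UnitAddTorus (Fin d) → ℂ := fun k => xm ((lev ψ r).conv ρ') ((K k : ℂ) - z) (S k) with hX
  have hXim : ∀ k, (X k).im ≤ -(η * r ^ 2 / (16 * D ^ 2)) := by
    intro k
    have h1 := (hxb k).2.1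
    rw [hxim, neg_neg] at h1
    have h2 : η * r ^ 2 / (16 * D ^ 2) ≤ η * r ^ 2 / (16 * ‖((K k : ℂ) - z) + S k‖ ^ 2) := by
      have h3 : 0 < ‖((K k : ℂ) - z) + S k‖ := by
        refine norm_pos_iff.2 fun h => ?_
        have := congrArg Complex.im h
        rw [Complex.add_im, hxim, Complex.zero_im] at this
        linarith [(hS k).2.2]
      exact div_le_div_of_nonneg_left (by positivity) (by positivity)
        (by have := pow_le_pow_left₀ h3.le (hxS k) 2; linarith)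
    have h3 : (X k).im = (xm ((lev ψ r).conv ρ') ((K k : ℂ) - z) (S k)).im := rfl
    rw [h3]
    linarith
  have hcX : 0 < η * r ^ 2 / (16 * D ^ 2) := by positivity
  have hXn : ∀ k, ‖X k‖ ≤ D := by
    intro k
    have h1 := (hxb k).1
    have h2 : 50 * r ^ 2 / η ≤ r / 2 := by
      rw [div_le_iff₀ hη]
      nlinarith
    have h3 : ‖X k‖ ≤ ‖(K k : ℂ) - z‖ + |mb| + 50 * r ^ 2 / η := by
      have h4 := norm_add_le (xm ((lev ψ r).conv ρ') ((K k : ℂ) - z) (S k) -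
        (((K k : ℂ) - z) + ((mb : ℝ) : ℂ))) (((K k : ℂ) - z) + ((mb : ℝ) : ℂ))
      rw [sub_add_cancel] at h4
      have h5 := norm_add_le ((K k : ℂ) - z) ((mb : ℝ) : ℂ)
      rw [Complex.norm_real, Real.norm_eq_abs] at h5
      have h6 : ‖X k‖ = ‖xm ((lev ψ r).conv ρ') ((K k : ℂ) - z) (S k)‖ := rfl
      rw [h6]
      linarith
    have := hD k
    linarith
  have hUUX : UU ((lev ψ r).conv ρ') (wz K z) s = toC fun k => cayx (X k) 0 := by
    unfold UU
    congr 1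
    funext k
    rw [(hS k).1]
    exact (hux k).2.2
  -- Lipschitz continuity
  have hlipX : ∀ (h : Fin d → ℝ) k, n1 h ≤ hz cL η r D CK →
      ‖X (sft h k) - X k‖ ≤ 4 * D * Lz cL η r D CK * n1 h := L1
  have hcayb : ∀ k, ‖cayx (X k) 0‖ ≤ 1 := fun k => (hCX.1 (X k) 0 (by linarith [hXim k])).1
  have hlip : ∀ (h : Fin d → ℝ) k, ‖cayx (X (sft h k)) 0 - cayx (X k) 0‖ ≤ Λ' * n1 h := by
    intro h k
    have hn := n1_nonneg h
    rcases le_total (n1 h) (hz cL η r D CK) with h1 | h1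
    · have h2 := hCX.2.1 (X (sft h k)) (X k) 0 0 (by linarith [hXim (sft h k)])
        (by linarith [hXim k])
      rw [sub_self, abs_zero, add_zero] at h2
      have h3 := hlipX h k h1
      calc _ ≤ 2 * ‖X (sft h k) - X k‖ := h2
        _ ≤ 2 * (4 * D * Lz cL η r D CK * n1 h) := by linarith
        _ = 8 * D * Lz cL η r D CK * n1 h := by ring
        _ ≤ _ := mul_le_mul_of_nonneg_right e6 hn
    · have h2 : ‖cayx (X (sft h k)) 0 - cayx (X k) 0‖ ≤ 2 :=
        (norm_sub_le _ _).trans (by linarith [hcayb (sft h k), hcayb k])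
      refine h2.trans ?_
      calc (2 : ℝ) = 2 / hz cL η r D CK * hz cL η r D CK := by field_simp
        _ ≤ Λ' * n1 h := mul_le_mul e7 h1 hh0.le (le_trans (by positivity) e7)
  -- continuity
  have hcont : Continuous fun k => cayx (X k) 0 := cont_of_lip hlip
  obtain ⟨m, hm⟩ : ∃ m : C(UnitAddTorus (Fin d), ℂ), ∀ k, m k = cayx (X k) 0 :=
    ⟨⟨_, hcont⟩, fun k => rfl⟩
  have hUm : UU ((lev ψ r).conv ρ') (wz K z) s = m := by
    rw [hUUX]
    ext k
    rw [hm]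
    unfold toC
    rw [dif_pos hcont]
    rfl
  rw [hUm]
  -- the size of m
  have hq0 : 0 ≤ 1 - 2 * (η * r ^ 2 / (16 * D ^ 2)) / (D + 1) ^ 2 := by
    have := cay_q hcX (hXim (fun _ => 0)) (hXn (fun _ => 0))
    exact (norm_nonneg _).trans this
  have hmn : ‖m‖ ≤ 1 - 2 * (η * r ^ 2 / (16 * D ^ 2)) / (D + 1) ^ 2 := by
    rw [ContinuousMap.norm_le _ hq0]
    intro k
    rw [hm]
    exact cay_q hcX (hXim k) (hXn k)
  have hq1 : 1 - 2 * (η * r ^ 2 / (16 * D ^ 2)) / (D + 1) ^ 2 < 1 := by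
    have : 0 < 2 * (η * r ^ 2 / (16 * D ^ 2)) / (D + 1) ^ 2 := by positivity
    linarith
  have hps := hPSI ν d _ m m hq0 hq1 hmn hmn
  have hps1 : ∀ k, ‖psi ν m k‖ ≤ 1 := fun k => (hps.1 k).2.2.1
  refine ⟨(ContinuousMap.norm_le _ zero_le_one).2 hps1, fun k => ?_⟩
  -- one momentum
  obtain ⟨j, t, ht, hk⟩ := decomp (L := L) k
  have htra := hTRA m (fun i => ((t i : ℝ) : UnitAddCircle)) j hmn (fun h k => by
    rw [hm, hm]; exact hlip h k)
  rw [← hk] at htra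
  set X' : T d L → ℂ := fun p => X (fun i => ((t i : ℝ) : UnitAddCircle) + ZMod.toAddCircle (p i))
    with hX'
  have hfib : fib m (fun i => ((t i : ℝ) : UnitAddCircle)) = fun p => cayx (X' p) 0 := by
    funext p
    unfold fib
    rw [hm]
  rw [hfib, (hCYL d L ν' X' _ hcX (fun p => hXim _) j).2.2] at htra
  -- the torus theorem
  have hKe : ∀ k, K k = γ * (lap d k - a₁) := fun k => rfl
  have hclose : ∀ p : T d L,
      |K (fun i => ((t i : ℝ) : UnitAddCircle) + ZMod.toAddCircle (p i)) - z.re + mb -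
        γ * (2 * d - adj p - (a₁ + z.re / γ - mb / γ))| ≤ 13 * d * γ / L := by
    intro p
    have h1 := lap_grid t ht p
    rw [hKe]
    have h2 : γ * (lap d (fun i => ((t i : ℝ) : UnitAddCircle) + ZMod.toAddCircle (p i)) - a₁) -
        z.re + mb - γ * (2 * d - adj p - (a₁ + z.re / γ - mb / γ)) =
        γ * (lap d (fun i => ((t i : ℝ) : UnitAddCircle) + ZMod.toAddCircle (p i)) -
          (2 * d - adj p)) := by
      field_simp
      ring
    rw [h2, abs_mul, abs_of_pos hγ0]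
    calc _ ≤ γ * (13 * d / L) := by gcongr
      _ = _ := by ring
  have hT := hTOR X' (fun p => ?_) (fun p => ?_) (fun p => ?_) j
  · exact zr_close hT.2 hT.1 hη hηR hR4 (hps1 k) htra e5
  · have h1 := (hxb (fun i => ((t i : ℝ) : UnitAddCircle) + ZMod.toAddCircle (p i))).1
    have h2 := hclose p
    have h3 : X' p - (((γ * (2 * d - adj p - (a₁ + z.re / γ - mb / γ)) : ℝ) : ℂ)
        - z.im * Complex.I) =
        (xm ((lev ψ r).conv ρ')
          ((K (fun i => ((t i : ℝ) : UnitAddCircle) + ZMod.toAddCircle (p i)) : ℂ) - z)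
          (S (fun i => ((t i : ℝ) : UnitAddCircle) + ZMod.toAddCircle (p i))) -
          (((K (fun i => ((t i : ℝ) : UnitAddCircle) + ZMod.toAddCircle (p i)) : ℂ) - z) +
            ((mb : ℝ) : ℂ))) +
        ((K (fun i => ((t i : ℝ) : UnitAddCircle) + ZMod.toAddCircle (p i)) - z.re + mb -
          γ * (2 * d - adj p - (a₁ + z.re / γ - mb / γ)) : ℝ) : ℂ) := by
      have h4 : z = z.re + z.im * Complex.I := (Complex.re_add_im z).symm
      have h5 : X' p = xm ((lev ψ r).conv ρ')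
          ((K (fun i => ((t i : ℝ) : UnitAddCircle) + ZMod.toAddCircle (p i)) : ℂ) - z)
          (S (fun i => ((t i : ℝ) : UnitAddCircle) + ZMod.toAddCircle (p i))) := rfl
      rw [h5]
      push_cast
      linear_combination -h4
    rw [h3]
    refine (norm_add_le _ _).trans ?_
    rw [Complex.norm_real, Real.norm_eq_abs]
    linarith
  · have h1 := (hxb (fun i => ((t i : ℝ) : UnitAddCircle) + ZMod.toAddCircle (p i))).2.1
    rw [hxim, neg_neg] at h1
    have h3 : (X' p).im = (xm ((lev ψ r).conv ρ')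
          ((K (fun i => ((t i : ℝ) : UnitAddCircle) + ZMod.toAddCircle (p i)) : ℂ) - z)
          (S (fun i => ((t i : ℝ) : UnitAddCircle) + ZMod.toAddCircle (p i)))).im := rfl
    rw [h3]
    refine le_trans ?_ h1
    have : 0 ≤ η * r ^ 2 / (16 * ‖((K (fun i => ((t i : ℝ) : UnitAddCircle) +
      ZMod.toAddCircle (p i)) : ℂ) - z) + S (fun i => ((t i : ℝ) : UnitAddCircle) +
      ZMod.toAddCircle (p i))‖ ^ 2) := by positivity
    linarith
  · obtain ⟨k', hk'⟩ : ∃ k' : UnitAddTorus (Fin d),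
      k' = fun i => ((t i : ℝ) : UnitAddCircle) + ZMod.toAddCircle (p i) := ⟨_, rfl⟩
    have h1 := (hxb k').2.1
    rw [hxim, neg_neg] at h1
    have h3 : (X' p).im = (xm ((lev ψ r).conv ρ') ((K k' : ℂ) - z) (S k')).im := by rw [hk']
    rw [h3]
    have h2 := hclose p
    rw [← hk'] at h2
    set w : ℝ := |γ * (2 * d - adj p - (a₁ + z.re / γ - mb / γ))| + R with hw
    have hw0 : R ≤ w := by
      have := abs_nonneg (γ * (2 * d - adj p - (a₁ + z.re / γ - mb / γ)))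
      linarith
    have hR0 : 0 < R := by linarith
    have hwp : 0 < w := hR0.trans_le hw0
    have h4 : ‖((K k' : ℂ) - z) + S k'‖ ≤ 2 * w + z.im := by
      have h5 := norm_add_le ((K k' : ℂ) - z) (S k')
      have h6 := Complex.norm_le_abs_re_add_abs_im ((K k' : ℂ) - z)
      rw [hxim, abs_neg, abs_of_pos hzi, Complex.sub_re, Complex.ofReal_re] at h6
      have h7 := (hS k').2.1
      have h8 : |K k' - z.re| ≤ |γ * (2 * d - adj p - (a₁ + z.re / γ - mb / γ))| + |mb| +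
          13 * d * γ / L := by
        have e1 : K k' - z.re = (K k' - z.re + mb - γ * (2 * d - adj p -
          (a₁ + z.re / γ - mb / γ))) + γ * (2 * d - adj p - (a₁ + z.re / γ - mb / γ)) - mb := by
          ring
        rw [e1]
        have e2 := abs_sub ((K k' - z.re + mb - γ * (2 * d - adj p -
          (a₁ + z.re / γ - mb / γ))) + γ * (2 * d - adj p - (a₁ + z.re / γ - mb / γ))) mb
        have e3 := abs_add_le (K k' - z.re + mb - γ * (2 * d - adj p -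
          (a₁ + z.re / γ - mb / γ))) (γ * (2 * d - adj p - (a₁ + z.re / γ - mb / γ)))
        linarith
      linarith
    have h9 : 0 < ‖((K k' : ℂ) - z) + S k'‖ := by
      refine norm_pos_iff.2 fun h => ?_
      have := congrArg Complex.im h
      rw [Complex.add_im, hxim, Complex.zero_im] at this
      linarith [(hS k').2.2]
    rcases le_total z.im w with hy | hy
    · have h5 : ‖((K k' : ℂ) - z) + S k'‖ ^ 2 ≤ (3 * w) ^ 2 :=
        pow_le_pow_left₀ h9.le (by linarith) 2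
      have h6 : A / w ^ 2 ≤ η * r ^ 2 / (16 * ‖((K k' : ℂ) - z) + S k'‖ ^ 2) := by
        rw [div_le_div_iff₀ (by positivity) (by positivity)]
        calc A * (16 * ‖((K k' : ℂ) - z) + S k'‖ ^ 2) ≤ A * (16 * (3 * w) ^ 2) := by gcongr
          _ = (A * 144) * w ^ 2 := by ring
          _ ≤ η * r ^ 2 * w ^ 2 := by
            refine mul_le_mul_of_nonneg_right ?_ (sq_nonneg _)
            linarith
      linarith
    · have h5 : A / w ^ 2 ≤ w := by
        rw [div_le_iff₀ (by positivity)]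
        calc A ≤ R ^ 3 := e3
          _ ≤ w ^ 3 := pow_le_pow_left₀ hR0.le hw0 3
          _ = w * w ^ 2 := by ring
      have h6 : 0 ≤ η * r ^ 2 / (16 * ‖((K k' : ℂ) - z) + S k'‖ ^ 2) := by positivity
      linarith

end

end Pool.Agent.Run7.h442.BG
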