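import Pool.Agent.Run7.h442.BA.Tor2

/-! Project BG (Gaussian disorder): the torus theorem for one coupling constant. -/

set_option autoImplicit false
set_option linter.unusedSectionVars false

open scoped BigOperators Matrix Topology
open MeasureTheory Filter

namespace Pool.Agent.Run7.h442.BG

open Pool.Agent.Run7.h442.BA
open Pool.Agent.W788.BK (PP nsq Low hi S_QB S_LOW JJ)
open Pool.Agent.W788.MFP.Four (T e NN adj NN_pos card_T)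
open Pool.Agent.W788.MFP.Form (J_neg J_pos J_ge J_ge' adj_abs)
open Pool.Agent.W788.MF2.Dom (DomBy dom_bdd m1 m1_pos)

/-- the torus theorem for one coupling constant, explicit conditions -/
theorem tor_lam (hCY : S_CYL) {d : ℕ} {a₁ a₂ γ C₁ s₂ κ u c' c₂ cN CN CQ CE cA B : ℝ} (hd : 3 ≤ d)
    (ha₁ : 0 < a₁) (ha₂ : a₂ < 4 * d) (hγ : 1 ≤ γ) (hC₁ : 0 < C₁) (hs₂ : 0 < s₂) (hs₂1 : s₂ ≤ 1)
    (hκ : 1 / 50 ≤ κ) (hκ1 : κ < 1 / 28) (hu : 0 < u) (huκ : u ≤ κ / 100)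
    (hu2 : u ≤ (1 / 28 - κ) / 10) (hc' : 0 < c') (hc₂ : 0 < c₂) (hcN : 0 < cN) (hCN0 : 0 < CN)
    (hcnt : ∀ (L : ℕ) [NeZero L] (E t : ℝ), a₁ / 2 ≤ E → E ≤ (a₂ + 4 * d) / 2 → CN / L ≤ t →
      t ≤ 1 →
      cN * t * NN d L ≤ ((Finset.univ.filter fun k : T d L => |2 * d - adj k - E| ≤ t).card : ℝ))
    (hdet : ∀ (ι : Type) [Fintype ι] [Nonempty ι]
      (K : ι → ℝ) (X Sg : ι → ℂ) (y v2 eX D₀ A S ζ₁ ℓ : ℝ) (gb : ℂ), 0 ≤ y → y ≤ 1 → 0 < v2 →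
      v2 ≤ 1 → 0 < eX → eX ≤ c₂ → 0 ≤ D₀ → 4 * D₀ ≤ eX → 0 < A → 0 < S → 1 ≤ ℓ →
      (∀ k, ‖X k - ((K k : ℂ) - y * Complex.I)‖ ≤ eX) → (∀ k, y ≤ -(X k).im) →
      (∀ k, A / (|K k| + S) ^ 2 ≤ -(X k).im) → (∀ k, (Sg k).im ≤ 0) →
      (Fintype.card ι : ℂ) * gb = ∑ k, 1 / (X k + Sg k) → (∀ k, ‖Sg k + v2 * gb‖ ≤ D₀) →
      v2 * ‖gb‖ ≤ ζ₁ → ζ₁ ≤ c₂ →
      (∀ ζ t : ℝ, |ζ| ≤ ζ₁ → eX ≤ t → t ≤ 1 →
        cN / γ * t * Fintype.card ι ≤ ((Finset.univ.filter fun k => |K k - ζ| ≤ t).card : ℝ)) →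
      (∀ ζ t : ℝ, eX ≤ t → ((Finset.univ.filter fun k => |K k - ζ| ≤ t).card : ℝ)
        ≤ (Pool.Agent.W788.MFP.Dos.C3 + 1) * t * Fintype.card ι) →
      (∀ ζ : ℝ, ∑ k, 1 / (|K k - ζ| + eX) ≤ ℓ * Fintype.card ι) →
      v2 * ℓ ≤ c₂ * S → eX ^ 2 * v2 ≤ c₂ * A → eX ≤ c₂ * S →
      eX ^ 2 * S ^ 2 ≤ c₂ * (v2 * A) →
        c' ≤ gb.im ∧ ‖gb‖ ≤ ℓ / c')
    (hCQ : ∀ (d L : ℕ) [NeZero L], 3 ≤ d → ∀ θ δ E : ℝ, 0 < θ →
      θ ≤ 1 → 0 < δ → δ ≤ 1 / 2 → (1 + 4 / δ) ^ 3 ≤ (L : ℝ) ^ 2 → ∀ Q : T d L, ¬ Low θ Q →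
      ∑ k : T d L, (JJ E δ k * JJ E δ (k + Q))⁻¹ ≤
        CQ * Real.log (1 / δ) ^ 2 / Real.sqrt (δ * θ) * NN d L)
    (hCE : 0 < CE) (hcA : 0 < cA) (hB : 0 ≤ B) {p : ℕ} (hp0 : p ≠ 0)
    (hp' : 2 * (B * d) + 86 ≤ p * (u / 2)) {K K2 lam : ℝ} (h0 : 0 < lam) (h1 : lam ≤ 1 / 2)
    (hK : K * lam ^ u ≤ 1) (hK2 : K2 * lam ^ (u / 2) ≤ 1)
    (hq2 : 4 * CQ * Real.log (1 / lam) ^ 2 * lam ^ u ≤ 1)
    (hq1 : (2 * (2 + 8 * Pool.Agent.W788.MFP.Dos.C3)) * Real.log (1 / lam) * lam ^ u ≤ 1)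
    (hq3 : (3 * (2 + 8 * Pool.Agent.W788.MFP.Dos.C3)) * Real.log (1 / lam) * lam ^ (u / 2) ≤ 1)
    (k1 : 160000 ≤ K) (k2 : 32 * C₁ ≤ K) (k3 : 30 * C₁ ^ 2 ≤ K) (k4 : (γ + 1) ^ 2 / cA ≤ K)
    (k5 : CE ≤ K) (k6 : (8 * d * γ + 1) ^ 2 / cA ≤ K) (k7 : 2 * ((8 * d * γ + 3) ^ 2 + 1) ≤ K)
    (k8 : CE / c₂ ≤ K) (k9 : 1 / c₂ ≤ K) (k10 : 4 / CE ≤ K) (k11 : 2 / a₁ ≤ K)
    (k12 : 2 / (4 * d - a₂) ≤ K) (k13 : CN * γ / CE ≤ K) (k14 : 1 / CE ≤ K)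
    (k15 : CE ^ 2 * C₁ ^ 2 / (c₂ * cA) ≤ K) (k16 : CE ^ 2 / (c₂ * (s₂ * C₁ ^ 2) * cA) ≤ K)
    (k17 : 2 / (s₂ * C₁ ^ 2 * c') ≤ K) (j1 : 8 * p * C₁ ^ 2 / m1 ^ 2 ≤ K2)
    (j2 : 2048 * p * C₁ ^ 2 / m1 ^ 2 ≤ K2) (j3 : C₁ ^ 2 / c₂ ≤ K2) (j4 : 4 * C₁ ^ 2 / c' ≤ K2)
    (L : ℕ) [NeZero L] (hL : lam ^ (-20 : ℝ) ≤ L) (hLB' : (L : ℝ) ≤ lam ^ (-B))
    (ν : Measure ℝ) [IsProbabilityMeasure ν] (hν : ∀ᵐ x ∂ν, |x| ≤ C₁ * lam)
    (hν0 : ∫ x, x ∂ν = 0) (hν2 : ∫ x, x ^ 2 ∂ν = s₂ * (C₁ * lam) ^ 2)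
    (E y : ℝ) (X : T d L → ℂ) (hE1 : a₁ ≤ E) (hE2 : E ≤ a₂) (hy : 0 ≤ y) (hy1 : y ≤ 1)
    (hX1 : ∀ k, ‖X k - (((γ * (2 * d - adj k - E) : ℝ) : ℂ) - y * Complex.I)‖
        ≤ CE * lam ^ (2 + 2 * κ)) (hX2 : ∀ k, y ≤ -(X k).im)
    (hX3 : ∀ k, cA * lam ^ (6 + 2 * κ) / (|γ * (2 * d - adj k - E)| + lam ^ (2 - u)) ^ 2
        ≤ -(X k).im) :
    ∀ k, (sm ν X k).im ≤ -(s₂ * C₁ ^ 2 * c' / 2 * lam ^ 2) ∧ ‖sm ν X k‖ ≤ lam ^ (2 - u) / 2 := by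
  have hd0 : (0 : ℝ) ≤ d := by positivity
  have hC3 : 0 ≤ Pool.Agent.W788.MFP.Dos.C3 := by unfold Pool.Agent.W788.MFP.Dos.C3; norm_num
  have hγ0 : 0 < γ := by linarith
  have hda : 0 < 4 * (d : ℝ) - a₂ := by linarith
  have hm := m1_pos
  have h1' : lam ≤ 1 := h1.trans (by norm_num)
  obtain ⟨t1, t2⟩ := tor1 hd (fun L' _ θ δ E' hθ hθ1 hδ hδ1 hLL Q hQ =>
      hCQ d L' hd θ δ E' hθ hθ1 hδ hδ1 hLL Q hQ) hγ hC₁ hs₂ hs₂1 hκ hκ1 hu huκ hCE hcA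
    hB hp0 hp' h0 h1 hK k2 k3 k4 k1 k5 k6 k7 hq2 hq1 hK2 j1 j2 L hL hLB' ν
    hν hν0 hν2 E y X (by linarith) (by linarith) hy hy1 hX1 hX3
  have hpos := fun x => Pw.pos h0 x
  have hmul := fun x y => Pw.mul h0 x y
  have hP1 : lam ^ (1 : ℝ) = lam := Real.rpow_one lam
  have hab : ∀ {C x y : ℝ}, C ≤ K → y ≤ x - u → C * lam ^ x ≤ lam ^ y :=
    fun hC hy => Pw.absl h0 h1' hK hC hy
  have hab2 : ∀ {C x y : ℝ}, C ≤ K2 → y ≤ x - u / 2 → C * lam ^ x ≤ lam ^ y :=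
    fun hC hy => Pw.absl h0 h1' hK2 hC hy
  have hdiv : ∀ {a b x y : ℝ}, 0 < b → a / b * x ≤ y → a * x ≤ b * y := by
    intro a b x y hb h
    have h2 := mul_le_mul_of_nonneg_left h hb.le
    have h3 : b * (a / b * x) = a * x := by field_simp
    linarith
  have hN := NN_pos (d := d) (L := L)
  have hL0 : (0 : ℝ) < L := (hpos (-20)).trans_le hL
  have hLi : 1 / (L : ℝ) ≤ lam ^ (20 : ℝ) := by
    rw [div_le_iff₀ hL0]
    calc (1 : ℝ) = lam ^ (20 : ℝ) * lam ^ (-20 : ℝ) := by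
          rw [hmul, add_neg_cancel, Real.rpow_zero]
      _ ≤ _ := mul_le_mul_of_nonneg_left hL (hpos 20).le
  -- the conditions of the self-consistent equation
  set v2 := s₂ * (C₁ * lam) ^ 2 with hv2d
  have h2sq : (C₁ * lam) ^ 2 = C₁ ^ 2 * lam ^ (2 : ℝ) := by rw [Real.rpow_two]; ring
  have hv20 : 0 < v2 := by positivity
  have hv2 : v2 ≤ C₁ ^ 2 * lam ^ (2 : ℝ) := by
    rw [hv2d, h2sq]
    have : 0 ≤ C₁ ^ 2 * lam ^ (2 : ℝ) := by have := hpos 2; positivity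
    exact mul_le_of_le_one_left this hs₂1
  have hv21 : v2 ≤ 1 := by
    refine hv2.trans ?_
    have : C₁ ^ 2 * lam ^ (2 : ℝ) ≤ lam ^ (0 : ℝ) := hab (by linarith [sq_nonneg C₁]) (by linarith)
    rwa [Real.rpow_zero] at this
  have heX0 : 0 < CE * lam ^ (2 + 2 * κ) := mul_pos hCE (hpos _)
  have heX1 : CE * lam ^ (2 + 2 * κ) ≤ c₂ := by
    have h2 : CE / c₂ * lam ^ (2 + 2 * κ) ≤ lam ^ (0 : ℝ) := hab (by linarith) (by linarith)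
    have h3 := hdiv hc₂ h2
    rwa [Real.rpow_zero, mul_one] at h3
  have hD4 : 4 * lam ^ (16 / 7 - 6 * κ - 49 * u) ≤ CE * lam ^ (2 + 2 * κ) :=
    hdiv hCE (hab (by linarith) (by linarith))
  have hA0 : 0 < cA * lam ^ (6 + 2 * κ) := mul_pos hcA (hpos _)
  have hℓ1 : 1 ≤ lam ^ (-(u / 2)) := Pw.one_le h0 h1' (by linarith)
  -- the imaginary part of the self-energy
  have hXc : ∀ k, (X k).im ≤ -(cA * lam ^ (6 + 2 * κ) / (8 * d * γ + 1) ^ 2) := by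
    intro k
    have h2 := hX3 k
    have h3 : |γ * (2 * d - adj k - E)| + lam ^ (2 - u) ≤ 8 * d * γ + 1 := by
      have h4 : lam ^ (2 - u) ≤ 1 := Pw.le_one h0 h1' (by linarith)
      have h5 := adj_abs k
      have h6 : |2 * d - adj k - E| ≤ 8 * d := by
        rw [abs_le] at h5 ⊢
        constructor <;> linarith [h5.1, h5.2]
      rw [abs_mul, abs_of_nonneg hγ0.le]
      have h7 : γ * |2 * d - adj k - E| ≤ γ * (8 * d) := by gcongr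
      linarith
    have h4 : 0 < |γ * (2 * d - adj k - E)| + lam ^ (2 - u) := by
      have := hpos (2 - u)
      have := abs_nonneg (γ * (2 * d - adj k - E))
      linarith
    have h5 : cA * lam ^ (6 + 2 * κ) / (8 * d * γ + 1) ^ 2 ≤
        cA * lam ^ (6 + 2 * κ) / (|γ * (2 * d - adj k - E)| + lam ^ (2 - u)) ^ 2 :=
      div_le_div_of_nonneg_left hA0.le (by positivity) (pow_le_pow_left₀ h4.le h3 2)
    linarith
  have hcX : 0 < cA * lam ^ (6 + 2 * κ) / (8 * d * γ + 1) ^ 2 := by positivity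
  have hcyl := hCY d L ν X _ hcX hXc
  have hcard : (Fintype.card (T d L) : ℝ) = NN d L := card_T
  have hcardC : ((Fintype.card (T d L) : ℂ)) = ((NN d L : ℝ) : ℂ) := by
    rw [← hcard]; push_cast; rfl
  have hgbS : (Fintype.card (T d L) : ℂ) * gb ν X = ∑ k, 1 / (X k + sm ν X k) := by
    unfold gb
    rw [hcardC, ← mul_assoc, ← Complex.ofReal_mul, mul_inv_cancel₀ hN.ne', Complex.ofReal_one,
      one_mul]
    refine Finset.sum_congr rfl fun k _ => ?_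
    unfold sm
    rw [add_sub_cancel, one_div_one_div]
  have hζ : lam ^ (2 - 2 * κ - 16 * u) ≤ c₂ := by
    have h2 : 1 / c₂ * lam ^ (2 - 2 * κ - 16 * u) ≤ lam ^ (0 : ℝ) :=
      hab (by linarith) (by linarith)
    have h3 := hdiv hc₂ h2
    rwa [Real.rpow_zero, mul_one, one_mul] at h3
  have hlow : ∀ ζ t : ℝ, |ζ| ≤ lam ^ (2 - 2 * κ - 16 * u) → CE * lam ^ (2 + 2 * κ) ≤ t → t ≤ 1 →
      cN / γ * t * Fintype.card (T d L) ≤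
        ((Finset.univ.filter fun k : T d L => |γ * (2 * d - adj k - E) - ζ| ≤ t).card : ℝ) := by
    intro ζ t hz ht ht1
    have b1 : lam ^ (2 - 2 * κ - 16 * u) ≤ a₁ / 2 := by
      have h2 : 2 / a₁ * lam ^ (2 - 2 * κ - 16 * u) ≤ lam ^ (0 : ℝ) :=
        hab (by linarith) (by linarith)
      have h3 := hdiv ha₁ h2
      rw [Real.rpow_zero, mul_one] at h3
      linarith
    have b2 : lam ^ (2 - 2 * κ - 16 * u) ≤ (4 * d - a₂) / 2 := by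
      have h2 : 2 / (4 * d - a₂) * lam ^ (2 - 2 * κ - 16 * u) ≤ lam ^ (0 : ℝ) :=
        hab (by linarith) (by linarith)
      have h3 := hdiv hda h2
      rw [Real.rpow_zero, mul_one] at h3
      linarith
    have b3 : |ζ / γ| ≤ |ζ| := by
      rw [abs_div, abs_of_nonneg hγ0.le]
      exact div_le_self (abs_nonneg _) hγ
    have b4 := abs_le.1 (b3.trans hz)
    have b5 : CN / L ≤ t / γ := by
      rw [le_div_iff₀ hγ0]
      refine le_trans ?_ ht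
      have h2 : CN * γ / CE * lam ^ (20 : ℝ) ≤ lam ^ (2 + 2 * κ) :=
        hab (by linarith) (by linarith)
      have h3 := hdiv hCE h2
      calc CN / L * γ = CN * γ * (1 / L) := by ring
        _ ≤ CN * γ * lam ^ (20 : ℝ) := by gcongr
        _ ≤ _ := h3
    have b6 : t / γ ≤ 1 := by rw [div_le_one hγ0]; linarith
    have h2 := hcnt L (E + ζ / γ) (t / γ) (by linarith) (by linarith) b5 b6
    have h3 : (Finset.univ.filter fun k : T d L => |2 * d - adj k - (E + ζ / γ)| ≤ t / γ) =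
        (Finset.univ.filter fun k : T d L => |γ * (2 * d - adj k - E) - ζ| ≤ t) := by
      refine Finset.filter_congr fun k _ => ?_
      have h4 : γ * (2 * d - adj k - E) - ζ = γ * (2 * d - adj k - (E + ζ / γ)) := by
        field_simp
        ring
      rw [h4, abs_mul, abs_of_nonneg hγ0.le, le_div_iff₀ hγ0, mul_comm]
    rw [h3] at h2
    rw [hcard]
    calc cN / γ * t * NN d L = cN * (t / γ) * NN d L := by ring
      _ ≤ _ := h2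
  have h3X : lam ^ (3 : ℝ) ≤ CE * lam ^ (2 + 2 * κ) := by
    have h2 : 1 / CE * lam ^ (3 : ℝ) ≤ lam ^ (2 + 2 * κ) := hab (by linarith) (by linarith)
    have h3 := hdiv hCE h2
    linarith
  have hLi3 : 1 / (L : ℝ) ≤ lam ^ (3 : ℝ) := hLi.trans (Pw.anti h0 h1' (by norm_num))
  have hup : ∀ ζ t : ℝ, CE * lam ^ (2 + 2 * κ) ≤ t →
      ((Finset.univ.filter fun k : T d L => |γ * (2 * d - adj k - E) - ζ| ≤ t).card : ℝ)
      ≤ (Pool.Agent.W788.MFP.Dos.C3 + 1) * t * Fintype.card (T d L) := by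
    intro ζ t ht
    rw [hcard]
    exact cnt_up hd hγ E ζ t (hLi3.trans (h3X.trans ht))
  have hsum : ∀ ζ : ℝ, ∑ k : T d L, 1 / (|γ * (2 * d - adj k - E) - ζ| +
      CE * lam ^ (2 + 2 * κ)) ≤ lam ^ (-(u / 2)) * Fintype.card (T d L) := by
    intro ζ
    have hδ1 : lam ^ (3 : ℝ) ≤ 1 / 2 := by
      have : lam ^ (3 : ℝ) ≤ lam ^ (1 : ℝ) := Pw.anti h0 h1' (by norm_num)
      rw [hP1] at this
      linarith
    refine (sum_up hd hγ E ζ (lam ^ (3 : ℝ)) _ hLi3 hδ1 h3X).trans ?_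
    rw [hcard]
    refine mul_le_mul_of_nonneg_right ?_ hN.le
    have hlog : Real.log (1 / lam ^ (3 : ℝ)) = 3 * Real.log (1 / lam) := by
      rw [one_div, one_div, Real.log_inv, Real.log_inv, Real.log_rpow h0]; ring
    have h5 : lam ^ (u / 2) * lam ^ (-(u / 2)) = 1 := by
      rw [hmul, add_neg_cancel, Real.rpow_zero]
    rw [hlog]
    calc (2 + 8 * Pool.Agent.W788.MFP.Dos.C3) * (3 * Real.log (1 / lam)) =
          ((3 * (2 + 8 * Pool.Agent.W788.MFP.Dos.C3)) * Real.log (1 / lam) * lam ^ (u / 2)) *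
            lam ^ (-(u / 2)) := by rw [mul_assoc _ (lam ^ (u / 2)), h5]; ring
      _ ≤ 1 * lam ^ (-(u / 2)) := mul_le_mul_of_nonneg_right hq3 (hpos _).le
      _ = _ := one_mul _
  have hv2ℓ : v2 * lam ^ (-(u / 2)) ≤ C₁ ^ 2 * lam ^ (2 - u / 2) := by
    calc v2 * lam ^ (-(u / 2)) ≤ C₁ ^ 2 * lam ^ (2 : ℝ) * lam ^ (-(u / 2)) :=
          mul_le_mul_of_nonneg_right hv2 (hpos _).le
      _ = _ := by rw [mul_assoc, hmul]; rfl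
  have e1 : v2 * lam ^ (-(u / 2)) ≤ c₂ * lam ^ (2 - u) := by
    refine hv2ℓ.trans (hdiv hc₂ (hab2 (by linarith) (by linarith)))
  have e2 : (CE * lam ^ (2 + 2 * κ)) ^ 2 * v2 ≤ c₂ * (cA * lam ^ (6 + 2 * κ)) := by
    have h2 : CE ^ 2 * C₁ ^ 2 / (c₂ * cA) * lam ^ (6 + 4 * κ) ≤ lam ^ (6 + 2 * κ) :=
      hab (by linarith) (by linarith)
    have h3 := hdiv (by positivity) h2
    calc (CE * lam ^ (2 + 2 * κ)) ^ 2 * v2 ≤
          (CE * lam ^ (2 + 2 * κ)) ^ 2 * (C₁ ^ 2 * lam ^ (2 : ℝ)) :=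
          mul_le_mul_of_nonneg_left hv2 (sq_nonneg _)
      _ = CE ^ 2 * C₁ ^ 2 * lam ^ (6 + 4 * κ) := by
          have h4 : lam ^ (6 + 4 * κ) = (lam ^ (2 + 2 * κ)) ^ 2 * lam ^ (2 : ℝ) := by
            rw [Pw.pow h0, hmul]; congr 1; push_cast; ring
          rw [h4]; ring
      _ ≤ _ := h3
      _ = _ := by ring
  have e3 : CE * lam ^ (2 + 2 * κ) ≤ c₂ * lam ^ (2 - u) :=
    hdiv hc₂ (hab (by linarith) (by linarith))
  have e4 : (CE * lam ^ (2 + 2 * κ)) ^ 2 * (lam ^ (2 - u)) ^ 2 ≤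
      c₂ * (v2 * (cA * lam ^ (6 + 2 * κ))) := by
    have h2 : CE ^ 2 / (c₂ * (s₂ * C₁ ^ 2) * cA) * lam ^ (8 + 4 * κ - 2 * u) ≤
        lam ^ (8 + 2 * κ) := hab (by linarith) (by linarith)
    have h3 := hdiv (by positivity) h2
    calc (CE * lam ^ (2 + 2 * κ)) ^ 2 * (lam ^ (2 - u)) ^ 2 =
          CE ^ 2 * lam ^ (8 + 4 * κ - 2 * u) := by
          have h4 : lam ^ (8 + 4 * κ - 2 * u) = (lam ^ (2 + 2 * κ)) ^ 2 * (lam ^ (2 - u)) ^ 2 := by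
            rw [Pw.pow h0, Pw.pow h0, hmul]; congr 1; push_cast; ring
          rw [h4]; ring
      _ ≤ _ := h3
      _ = _ := by
          have h4 : lam ^ (8 + 2 * κ) = lam ^ (2 : ℝ) * lam ^ (6 + 2 * κ) := by
            rw [hmul]; congr 1; ring
          rw [h4, hv2d, h2sq]; ring
  obtain ⟨r1, r2⟩ := hdet (T d L) (fun k => γ * (2 * d - adj k - E)) X (sm ν X) y v2
    (CE * lam ^ (2 + 2 * κ)) (lam ^ (16 / 7 - 6 * κ - 49 * u)) (cA * lam ^ (6 + 2 * κ))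
    (lam ^ (2 - u)) (lam ^ (2 - 2 * κ - 16 * u)) (lam ^ (-(u / 2))) (gb ν X) hy hy1 hv20 hv21
    heX0 heX1 (hpos _).le hD4 hA0 (hpos _) hℓ1 hX1 hX2 hX3 (fun k => (hcyl k).2.1) hgbS
    (fun k => (t2 k).2) t1 hζ hlow hup hsum e1 e2 e3 e4
  intro k
  have hk := (t2 k).2
  have hsplit : sm ν X k = (sm ν X k + (v2 : ℂ) * gb ν X) - (v2 : ℂ) * gb ν X := by ring
  constructor
  · have h2 : (sm ν X k).im = (sm ν X k + (v2 : ℂ) * gb ν X).im - v2 * (gb ν X).im := by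
      rw [Complex.add_im, Complex.im_ofReal_mul]
      ring
    have h3 := (Complex.abs_im_le_norm _).trans hk
    have h4 := (abs_le.1 h3).2
    have h5 : lam ^ (16 / 7 - 6 * κ - 49 * u) ≤ s₂ * C₁ ^ 2 * c' / 2 * lam ^ (2 : ℝ) := by
      have h6 : 2 / (s₂ * C₁ ^ 2 * c') * lam ^ (16 / 7 - 6 * κ - 49 * u) ≤ lam ^ (2 : ℝ) :=
        hab (by linarith) (by linarith)
      have h7 := hdiv (by positivity) h6
      linarith
    have h6 : v2 * c' ≤ v2 * (gb ν X).im := mul_le_mul_of_nonneg_left r1 hv20.le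
    have h7 : v2 * c' = s₂ * C₁ ^ 2 * c' * lam ^ (2 : ℝ) := by rw [hv2d, h2sq]; ring
    have h8 : lam ^ (2 : ℝ) = lam ^ 2 := Real.rpow_two lam
    rw [h8] at h5 h7
    obtain ⟨Z, hZ⟩ : ∃ Z : ℝ, Z = s₂ * C₁ ^ 2 * c' * lam ^ 2 := ⟨_, rfl⟩
    have h9 : s₂ * C₁ ^ 2 * c' / 2 * lam ^ 2 = Z / 2 := by rw [hZ]; ring
    rw [h9] at h5 ⊢
    rw [← hZ] at h7
    linarith
  · rw [hsplit]
    refine (norm_sub_le _ _).trans ?_
    rw [norm_mul, Complex.norm_real, Real.norm_eq_abs, abs_of_nonneg hv20.le]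
    have h3 : v2 * ‖gb ν X‖ ≤ lam ^ (2 - u) / 4 := by
      calc v2 * ‖gb ν X‖ ≤ v2 * (lam ^ (-(u / 2)) / c') := mul_le_mul_of_nonneg_left r2 hv20.le
        _ = v2 * lam ^ (-(u / 2)) / c' := by ring
        _ ≤ C₁ ^ 2 * lam ^ (2 - u / 2) / c' := by gcongr
        _ = 4 * C₁ ^ 2 / c' * lam ^ (2 - u / 2) / 4 := by ring
        _ ≤ lam ^ (2 - u) / 4 := by
          have : 4 * C₁ ^ 2 / c' * lam ^ (2 - u / 2) ≤ lam ^ (2 - u) :=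
            hab2 (by linarith) (by linarith)
          linarith
    have h4 : 4 * lam ^ (16 / 7 - 6 * κ - 49 * u) ≤ lam ^ (2 - u) :=
      hab (by linarith) (by linarith)
    linarith

end Pool.Agent.Run7.h442.BG
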